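import Mathlib

/-!
Definitions for MP_eb30e1_co: order relations on a type as sets of pairs, the fixed point
property, maximal chains of order relations and consecutive members of a chain.
-/

set_option autoImplicit false

namespace Pool.Agent.MPeb30e1

/-- A set of pairs is an order relation if it is reflexive, antisymmetric and transitive. -/
def IsOrd {α : Type} (R : Set (α × α)) : Prop :=
  (∀ a, (a, a) ∈ R) ∧
  (∀ a b, (a, b) ∈ R → (b, a) ∈ R → a = b) ∧
  (∀ a b c, (a, b) ∈ R → (b, c) ∈ R → (a, c) ∈ R)

/-- The type of all order relations on `α`. -/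
def OrdRel (α : Type) : Type := {R : Set (α × α) // IsOrd R}

/-- The ordered set `(α, R)` has the fixed point property: every order-preserving self-map
has a fixed point. -/
def FPP {α : Type} (R : OrdRel α) : Prop :=
  ∀ f : α → α, (∀ a b, (a, b) ∈ R.1 → (f a, f b) ∈ R.1) → ∃ x, f x = x

/-- `C` is a maximal chain of order relations on `α`, compared by inclusion. -/
def MaximalChain {α : Type} (C : Set (OrdRel α)) : Prop :=
  IsMaxChain (fun R S : OrdRel α => R.1 ⊆ S.1) C

/-- `R` and `S` are consecutive members of the chain `C`, `R` being the smaller one. -/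
def Consecutive {α : Type} (C : Set (OrdRel α)) (R S : OrdRel α) : Prop :=
  R ∈ C ∧ S ∈ C ∧ R.1 ⊂ S.1 ∧ ∀ T ∈ C, R.1 ⊆ T.1 → T.1 ⊆ S.1 → T = R ∨ T = S

end Pool.Agent.MPeb30e1
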