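import Mathlib
import Pool.Agent.MPeb30e1.Defs

set_option autoImplicit false

namespace Pool.Agent.MPeb30e1

variable {α β : Type}

namespace OrdRel

theorem refl' (R : OrdRel α) (a : α) : (a, a) ∈ R.1 := R.2.1 a
theorem antisymm' (R : OrdRel α) {a b : α} (h : (a, b) ∈ R.1) (h' : (b, a) ∈ R.1) : a = b :=
  R.2.2.1 a b h h'
theorem trans' (R : OrdRel α) {a b c : α} (h : (a, b) ∈ R.1) (h' : (b, c) ∈ R.1) : (a, c) ∈ R.1 :=
  R.2.2.2 a b c h h'

theorem ext' {R S : OrdRel α} (h : R.1 = S.1) : R = S := Subtype.ext h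

end OrdRel

/-- one step -/
def Step (R S : OrdRel α) : Prop := ∃ p : α × α, p ∉ R.1 ∧ S.1 = insert p R.1

theorem Step.subset {R S : OrdRel α} (h : Step R S) : R.1 ⊆ S.1 := by
  obtain ⟨p, _, h2⟩ := h
  rw [h2]
  exact Set.subset_insert _ _

section Finite
variable [Finite α]

theorem Step.ncard {R S : OrdRel α} (h : Step R S) : S.1.ncard = R.1.ncard + 1 := by
  obtain ⟨p, h1, h2⟩ := h
  rw [h2, Set.ncard_insert_of_notMem h1 (Set.toFinite _)]

/-- the key extension lemma -/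
theorem add_pair (R : OrdRel α) (X : Set (α × α)) (hX : X.Nonempty)
    (h1 : ∀ a b, (a, b) ∈ X → (a, b) ∉ R.1 ∧ (b, a) ∉ R.1)
    (h2 : ∀ a b a', (a, b) ∈ X → (a', a) ∈ R.1 → (a', b) ∉ R.1 → (a', b) ∈ X)
    (h3 : ∀ a b b', (a, b) ∈ X → (b, b') ∈ R.1 → (a, b') ∉ R.1 → (a, b') ∈ X) :
    ∃ p ∈ X, IsOrd (insert p R.1) := by
  classical
  let μ : α × α → ℕ := fun p => {z | (p.1, z) ∈ R.1}.ncard + {z | (z, p.2) ∈ R.1}.ncard
  obtain ⟨⟨a, b⟩, hab, hmax⟩ := Set.exists_max_image X μ (Set.toFinite _) hX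
  have hA : ∀ a', (a', a) ∈ R.1 → a' ≠ a → (a', b) ∈ R.1 := by
    intro a' ha' hne
    by_contra hn
    have hm := hmax _ (h2 a b a' hab ha' hn)
    have hlt : {z | (a, z) ∈ R.1}.ncard < {z | (a', z) ∈ R.1}.ncard := by
      apply Set.ncard_lt_ncard
      · constructor
        · intro z hz
          exact R.trans' ha' hz
        · intro hsub
          have : a' ∈ {z | (a, z) ∈ R.1} := hsub (R.refl' a')
          exact hne (R.antisymm' ha' this)
      · exact Set.toFinite _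
    simp only [μ] at hm
    omega
  have hB : ∀ b', (b, b') ∈ R.1 → b' ≠ b → (a, b') ∈ R.1 := by
    intro b' hb' hne
    by_contra hn
    have hm := hmax _ (h3 a b b' hab hb' hn)
    have hlt : {z | (z, b) ∈ R.1}.ncard < {z | (z, b') ∈ R.1}.ncard := by
      apply Set.ncard_lt_ncard
      · constructor
        · intro z hz
          exact R.trans' hz hb'
        · intro hsub
          have : b' ∈ {z | (z, b) ∈ R.1} := hsub (R.refl' b')
          exact hne (R.antisymm' this hb')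
      · exact Set.toFinite _
    simp only [μ] at hm
    omega
  refine ⟨(a, b), hab, ?_, ?_, ?_⟩
  · intro c
    exact Or.inr (R.refl' c)
  · rintro c d (hcd | hcd) (hdc | hdc)
    · rw [Prod.mk.injEq] at hcd hdc
      rw [hcd.1, hdc.1, ← hcd.1, hdc.2]
    · rw [Prod.mk.injEq] at hcd
      rw [hcd.1, hcd.2] at hdc
      exact absurd hdc (h1 a b hab).2
    · rw [Prod.mk.injEq] at hdc
      rw [hdc.1, hdc.2] at hcd
      exact absurd hcd (h1 a b hab).2
    · exact R.antisymm' hcd hdc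
  · rintro c d e (hcd | hcd) (hde | hde)
    · rw [Prod.mk.injEq] at hcd hde
      rw [hcd.1, hde.2]
      exact Or.inl rfl
    · rw [Prod.mk.injEq] at hcd
      rw [hcd.2] at hde
      rw [hcd.1]
      by_cases he : e = b
      · rw [he]; exact Or.inl rfl
      · exact Or.inr (hB e hde he)
    · rw [Prod.mk.injEq] at hde
      rw [hde.1] at hcd
      rw [hde.2]
      by_cases he : c = a
      · rw [he]; exact Or.inl rfl
      · exact Or.inr (hA c hcd he)
    · exact Or.inr (R.trans' hcd hde)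

theorem exists_step_le {R S : OrdRel α} (h : R.1 ⊂ S.1) : ∃ T : OrdRel α, Step R T ∧ T.1 ⊆ S.1 := by
  obtain ⟨hsub, hne⟩ := h
  obtain ⟨q, hqS, hqR⟩ := Set.not_subset.mp hne
  obtain ⟨p, hp, hord⟩ := add_pair R (S.1 \ R.1) ⟨q, hqS, hqR⟩
    (by
      rintro a b ⟨hS, hR⟩
      refine ⟨hR, fun h => ?_⟩
      have := S.antisymm' hS (hsub h)
      rw [this] at hR
      exact hR (R.refl' b))
    (by
      rintro a b a' ⟨hS, hR⟩ ha' hn
      exact ⟨S.trans' (hsub ha') hS, hn⟩)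
    (by
      rintro a b b' ⟨hS, hR⟩ hb' hn
      exact ⟨S.trans' hS (hsub hb'), hn⟩)
  refine ⟨⟨insert p R.1, hord⟩, ⟨p, hp.2, rfl⟩, ?_⟩
  exact Set.insert_subset hp.1 hsub

/-- the set of ordered incomparable pairs -/
def Inc (R : OrdRel α) : Set (α × α) := {p | p ∉ R.1 ∧ (p.2, p.1) ∉ R.1}

omit [Finite α] in
theorem mem_Inc {R : OrdRel α} {a b : α} : (a, b) ∈ Inc R ↔ (a, b) ∉ R.1 ∧ (b, a) ∉ R.1 := Iff.rfl

theorem exists_step {R : OrdRel α} (h : (Inc R).Nonempty) : ∃ T : OrdRel α, Step R T := by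
  obtain ⟨p, hp, hord⟩ := add_pair R (Inc R) h
    (by
      intro a b hab
      exact hab)
    (by
      intro a b a' hab ha' hn
      refine ⟨hn, fun h => ?_⟩
      exact hab.2 (R.trans' h ha'))
    (by
      intro a b b' hab hb' hn
      refine ⟨hn, fun h => ?_⟩
      exact hab.2 (R.trans' hb' h))
  exact ⟨⟨insert p R.1, hord⟩, ⟨p, hp.1, rfl⟩⟩

theorem count_eq (R : OrdRel α) :
    2 * R.1.ncard + (Inc R).ncard = Nat.card α ^ 2 + Nat.card α := by
  classical
  let Rt : Set (α × α) := {p | (p.2, p.1) ∈ R.1}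
  have h1 : Rt.ncard = R.1.ncard := by
    have : Rt = Prod.swap '' R.1 := by
      ext p
      constructor
      · intro hp
        exact ⟨(p.2, p.1), hp, rfl⟩
      · rintro ⟨q, hq, rfl⟩
        exact hq
    rw [this, Set.ncard_image_of_injective _ Prod.swap_injective]
  have h2 : (R.1 ∩ Rt).ncard = Nat.card α := by
    have : R.1 ∩ Rt = (fun a : α => (a, a)) '' Set.univ := by
      ext ⟨a, b⟩
      constructor
      · rintro ⟨h, h'⟩
        have : a = b := R.antisymm' h h'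
        rw [this]
        exact ⟨b, trivial, rfl⟩
      · rintro ⟨c, _, hc⟩
        rw [Prod.mk.injEq] at hc
        rw [← hc.1, ← hc.2]
        exact ⟨R.refl' c, R.refl' c⟩
    rw [this, Set.ncard_image_of_injective _ (fun a b h => (Prod.mk.injEq _ _ _ _ ▸ h).1),
      Set.ncard_univ]
  have h3 : (R.1 ∪ Rt).ncard + (R.1 ∩ Rt).ncard = R.1.ncard + Rt.ncard :=
    Set.ncard_union_add_ncard_inter _ _
  have h4 : Inc R = (R.1 ∪ Rt)ᶜ := by
    ext p
    simp [Inc, Rt]
  have h5 : (R.1 ∪ Rt).ncard + ((R.1 ∪ Rt)ᶜ).ncard = Nat.card (α × α) :=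
    Set.ncard_add_ncard_compl _
  rw [← h4, Nat.card_prod] at h5
  nlinarith

end Finite

end Pool.Agent.MPeb30e1
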