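import Mathlib
import Pool.Agent.MPeb30e1.Basic

set_option autoImplicit false

namespace Pool.Agent.MPeb30e1

variable {α β : Type}

section Finite
variable [Finite α]

theorem fix_of_le (R : OrdRel α) (f : α → α) (hf : ∀ a b, (a, b) ∈ R.1 → (f a, f b) ∈ R.1) :
    ∀ (k : ℕ) (x : α), {z | (x, z) ∈ R.1}.ncard ≤ k → (x, f x) ∈ R.1 → ∃ y, f y = y := by
  intro k
  induction k with
  | zero =>
    intro x hx h
    exfalso
    have : {z | (x, z) ∈ R.1}.Nonempty := ⟨x, R.refl' x⟩
    have h0 := (Set.ncard_pos (Set.toFinite _)).mpr this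
    omega
  | succ k ih =>
    intro x hx h
    by_cases he : f x = x
    · exact ⟨x, he⟩
    · apply ih (f x) _ (hf _ _ h)
      have hlt : {z | (f x, z) ∈ R.1}.ncard < {z | (x, z) ∈ R.1}.ncard := by
        apply Set.ncard_lt_ncard
        · constructor
          · intro z hz
            exact R.trans' h hz
          · intro hsub
            have : x ∈ {z | (f x, z) ∈ R.1} := hsub (R.refl' x)
            exact he (R.antisymm' this h)
        · exact Set.toFinite _
      omega

theorem fix_of_ge (R : OrdRel α) (f : α → α) (hf : ∀ a b, (a, b) ∈ R.1 → (f a, f b) ∈ R.1) :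
    ∀ (k : ℕ) (x : α), {z | (z, x) ∈ R.1}.ncard ≤ k → (f x, x) ∈ R.1 → ∃ y, f y = y := by
  intro k
  induction k with
  | zero =>
    intro x hx h
    exfalso
    have : {z | (z, x) ∈ R.1}.Nonempty := ⟨x, R.refl' x⟩
    have h0 := (Set.ncard_pos (Set.toFinite _)).mpr this
    omega
  | succ k ih =>
    intro x hx h
    by_cases he : f x = x
    · exact ⟨x, he⟩
    · apply ih (f x) _ (hf _ _ h)
      have hlt : {z | (z, f x) ∈ R.1}.ncard < {z | (z, x) ∈ R.1}.ncard := by
        apply Set.ncard_lt_ncard
        · constructor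
          · intro z hz
            exact R.trans' hz h
          · intro hsub
            have : x ∈ {z | (z, f x) ∈ R.1} := hsub (R.refl' x)
            exact he (R.antisymm' h this)
        · exact Set.toFinite _
      omega

/-- a fixed point free order preserving map moves every point to an incomparable one -/
theorem inc_of_not_fix (R : OrdRel α) (f : α → α)
    (hf : ∀ a b, (a, b) ∈ R.1 → (f a, f b) ∈ R.1) (hn : ¬ ∃ x, f x = x) (x : α) :
    (x, f x) ∈ Inc R := by
  refine ⟨fun h => ?_, fun h => ?_⟩
  · exact hn (fix_of_le R f hf _ x le_rfl h)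
  · exact hn (fix_of_ge R f hf _ x le_rfl h)

theorem fpp_of_forall {R : OrdRel α}
    (h : ∀ f : α → α, (∀ a b, (a, b) ∈ R.1 → (f a, f b) ∈ R.1) → (∀ x, (x, f x) ∈ Inc R) → False) :
    FPP R := by
  intro f hf
  by_contra hn
  exact h f hf (inc_of_not_fix R f hf hn)

theorem fpp_of_comparable {R : OrdRel α} (x : α) (h : ∀ y, (x, y) ∉ Inc R) : FPP R :=
  fpp_of_forall (fun f _ hf2 => h _ (hf2 x))

theorem fpp_of_ncard_lt {R : OrdRel α} (h : (Inc R).ncard < Nat.card α) : FPP R := by
  by_contra hn
  have h1 : ∀ x : α, ∃ y, (x, y) ∈ Inc R := by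
    intro x
    by_contra hx
    push Not at hx
    exact hn (fpp_of_comparable x hx)
  have h2 : (Prod.fst '' Inc R) = Set.univ := by
    ext x
    obtain ⟨y, hy⟩ := h1 x
    simp only [Set.mem_univ, iff_true]
    exact ⟨(x, y), hy, rfl⟩
  have h3 : (Prod.fst '' Inc R).ncard ≤ (Inc R).ncard := Set.ncard_image_le (Set.toFinite _)
  rw [h2, Set.ncard_univ] at h3
  omega

/-- `2|R| > n^2` implies the FPP -/
theorem fpp_of_large {R : OrdRel α} (h : Nat.card α ^ 2 < 2 * R.1.ncard) : FPP R := by
  apply fpp_of_ncard_lt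
  have := count_eq R
  omega

/-- `|R| ≤ 2n - 2` implies the failure of the FPP -/
theorem not_fpp_of_small {R : OrdRel α} (hne : Nonempty α) (h : R.1.ncard + 1 < 2 * Nat.card α) :
    ¬ FPP R := by
  classical
  have := Fintype.ofFinite α
  let G : SimpleGraph α := SimpleGraph.fromRel (fun a b => (a, b) ∈ R.1)
  have hconn : ¬ G.Connected := by
    intro hG
    have h1 := hG.card_vert_le_card_edgeSet_add_one
    let D : Set (α × α) := {p | p ∈ R.1 ∧ p.1 ≠ p.2}
    have h2 : G.edgeSet ⊆ (fun p : α × α => s(p.1, p.2)) '' D := by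
      intro e he
      induction e using Sym2.ind with
      | _ a b =>
        rw [SimpleGraph.mem_edgeSet, SimpleGraph.fromRel_adj] at he
        rcases he.2 with h | h
        · exact ⟨(a, b), ⟨h, he.1⟩, rfl⟩
        · exact ⟨(b, a), ⟨h, he.1.symm⟩, Sym2.eq_swap⟩
    have h3 : G.edgeSet.ncard ≤ D.ncard :=
      (Set.ncard_le_ncard h2 (Set.toFinite _)).trans (Set.ncard_image_le (Set.toFinite _))
    have h4 : D.ncard + Nat.card α = R.1.ncard := by
      have e1 : ((fun a : α => (a, a)) '' Set.univ).ncard = Nat.card α := by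
        rw [Set.ncard_image_of_injective _ (fun a b h => (Prod.mk.injEq _ _ _ _ ▸ h).1),
          Set.ncard_univ]
      rw [← e1, ← Set.ncard_union_eq]
      · congr 1
        ext ⟨a, b⟩
        constructor
        · rintro (h | ⟨c, _, h⟩)
          · exact h.1
          · rw [Prod.mk.injEq] at h
            rw [← h.1, ← h.2]
            exact R.refl' c
        · intro h
          by_cases hab : a = b
          · right
            exact ⟨a, trivial, by rw [hab]⟩
          · left
            exact ⟨h, hab⟩
      · rw [Set.disjoint_left]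
        rintro p hp ⟨c, _, rfl⟩
        exact hp.2 rfl
    have h5 : Nat.card G.edgeSet = G.edgeSet.ncard := rfl
    omega
  intro hF
  rw [SimpleGraph.connected_iff] at hconn
  have hpre : ¬ G.Preconnected := fun hp => hconn ⟨hp, hne⟩
  unfold SimpleGraph.Preconnected at hpre
  push Not at hpre
  obtain ⟨a, b, hab⟩ := hpre
  obtain ⟨x, hx⟩ := hF (fun z => if G.Reachable a z then b else a) (by
    intro u v huv
    by_cases huv' : u = v
    · rw [huv']
      exact R.refl' _
    · have hadj : G.Adj u v := by
        rw [SimpleGraph.fromRel_adj]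
        exact ⟨huv', Or.inl huv⟩
      have hiff : G.Reachable a u ↔ G.Reachable a v :=
        ⟨fun h => h.trans hadj.reachable, fun h => h.trans hadj.symm.reachable⟩
      simp only [hiff]
      exact R.refl' _)
  by_cases hr : G.Reachable a x
  · simp only [hr, if_true] at hx
    rw [← hx] at hr
    exact hab hr
  · simp only [hr, if_false] at hx
    rw [← hx] at hr
    exact hr (SimpleGraph.Reachable.refl a)

end Finite

end Pool.Agent.MPeb30e1
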