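import Mathlib
import Pool.Agent.MPeb30e1.Fpp

set_option autoImplicit false

namespace Pool.Agent.MPeb30e1

variable {α β : Type}

/-- the discrete order -/
def diag (α : Type) : OrdRel α :=
  ⟨{p | p.1 = p.2}, fun _ => rfl, fun _ _ h _ => h, fun _ _ _ h h' => Eq.trans h h'⟩

theorem diag_sub (R : OrdRel α) : (diag α).1 ⊆ R.1 := by
  rintro ⟨a, b⟩ h
  have h' : a = b := h
  rw [h']
  exact R.refl' b

section Finite
variable [Finite α]

theorem ncard_diag : (diag α).1.ncard = Nat.card α := by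
  have e1 : (diag α).1 = ((fun a : α => (a, a)) '' Set.univ) := by
    ext ⟨a, b⟩
    constructor
    · intro h
      have h' : a = b := h
      exact ⟨a, trivial, by rw [h']⟩
    · rintro ⟨c, _, h⟩
      rw [Prod.mk.injEq] at h
      show a = b
      rw [← h.1, ← h.2]
  rw [e1, Set.ncard_image_of_injective _ (fun a b h => (Prod.mk.injEq _ _ _ _ ▸ h).1),
    Set.ncard_univ]

theorem card_le (R : OrdRel α) : Nat.card α ≤ R.1.ncard := by
  rw [← ncard_diag (α := α)]
  exact Set.ncard_le_ncard (diag_sub R) (Set.toFinite _)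

theorem two_mul_le (R : OrdRel α) : 2 * R.1.ncard ≤ Nat.card α ^ 2 + Nat.card α := by
  have := count_eq R
  omega

theorem eq_of_sub_of_ncard {R S : OrdRel α} (h : R.1 ⊆ S.1) (h2 : S.1.ncard ≤ R.1.ncard) : R = S :=
  OrdRel.ext' (Set.eq_of_subset_of_ncard_le h h2 (Set.toFinite _))

theorem ncard_lt_of_ssub {R S : OrdRel α} (h : R.1 ⊂ S.1) : R.1.ncard < S.1.ncard :=
  Set.ncard_lt_ncard h (Set.toFinite _)

end Finite

namespace MaximalChain

theorem total {C : Set (OrdRel α)} (hC : MaximalChain C) {R S : OrdRel α} (hR : R ∈ C) (hS : S ∈ C) :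
    R.1 ⊆ S.1 ∨ S.1 ⊆ R.1 := by
  by_cases h : R = S
  · rw [h]; exact Or.inl subset_rfl
  · exact hC.1 hR hS h

theorem mem_of_comparable {C : Set (OrdRel α)} (hC : MaximalChain C) {R : OrdRel α}
    (h : ∀ S ∈ C, R.1 ⊆ S.1 ∨ S.1 ⊆ R.1) : R ∈ C := by
  have h1 : IsChain (fun R S : OrdRel α => R.1 ⊆ S.1) (insert R C) :=
    hC.1.insert (fun S hS _ => h S hS)
  have h2 := hC.2 h1 (Set.subset_insert _ _)
  rw [h2]
  exact Set.mem_insert _ _

theorem diag_mem {C : Set (OrdRel α)} (hC : MaximalChain C) : diag α ∈ C :=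
  hC.mem_of_comparable (fun S _ => Or.inl (diag_sub S))

variable [Finite α]

theorem eq_of_ncard {C : Set (OrdRel α)} (hC : MaximalChain C) {R S : OrdRel α} (hR : R ∈ C)
    (hS : S ∈ C) (h : R.1.ncard = S.1.ncard) : R = S := by
  rcases hC.total hR hS with h1 | h1
  · exact eq_of_sub_of_ncard h1 h.ge
  · exact (eq_of_sub_of_ncard h1 h.le).symm

theorem exists_next {C : Set (OrdRel α)} (hC : MaximalChain C) {R : OrdRel α} (hR : R ∈ C)
    (hlt : 2 * R.1.ncard < Nat.card α ^ 2 + Nat.card α) : ∃ T ∈ C, Step R T := by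
  classical
  by_cases hex : ∃ S ∈ C, R.1 ⊂ S.1
  · have hfin : {S | S ∈ C ∧ R.1 ⊂ S.1}.Nonempty := hex
    have : Finite (OrdRel α) := Subtype.finite
    obtain ⟨S, ⟨hSC, hRS⟩, hmin⟩ := Set.exists_min_image {S | S ∈ C ∧ R.1 ⊂ S.1}
      (fun S => S.1.ncard) (Set.toFinite _) hfin
    obtain ⟨T, hstep, hTS⟩ := exists_step_le hRS
    refine ⟨T, hC.mem_of_comparable ?_, hstep⟩
    intro Y hY
    rcases hC.total hY hR with h1 | h1
    · exact Or.inr (h1.trans hstep.subset)
    · by_cases hYR : Y.1 ⊆ R.1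
      · exact Or.inr (hYR.trans hstep.subset)
      · have hm := hmin Y ⟨hY, h1, hYR⟩
        rcases hC.total hY hSC with h2 | h2
        · have := eq_of_sub_of_ncard h2 hm
          rw [this]
          exact Or.inl hTS
        · exact Or.inl (hTS.trans h2)
  · push Not at hex
    have hinc : (Inc R).Nonempty := by
      have := count_eq R
      have h0 : 0 < (Inc R).ncard := by omega
      exact (Set.ncard_pos (Set.toFinite _)).mp h0
    obtain ⟨T, hstep⟩ := exists_step hinc
    refine ⟨T, hC.mem_of_comparable ?_, hstep⟩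
    intro Y hY
    rcases hC.total hY hR with h1 | h1
    · exact Or.inr (h1.trans hstep.subset)
    · by_cases hYR : Y.1 ⊆ R.1
      · exact Or.inr (hYR.trans hstep.subset)
      · exact absurd ⟨h1, hYR⟩ (hex Y hY)

theorem exists_level {C : Set (OrdRel α)} (hC : MaximalChain C) (k : ℕ) (hk : Nat.card α ≤ k)
    (hk2 : 2 * k ≤ Nat.card α ^ 2 + Nat.card α) : ∃ R ∈ C, R.1.ncard = k := by
  induction k, hk using Nat.le_induction with
  | base => exact ⟨diag α, hC.diag_mem, ncard_diag⟩
  | succ k hk ih =>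
    obtain ⟨R, hR, hRk⟩ := ih (by omega)
    obtain ⟨T, hT, hs⟩ := hC.exists_next hR (by omega)
    exact ⟨T, hT, by rw [hs.ncard, hRk]⟩

theorem consecutive_step {C : Set (OrdRel α)} (hC : MaximalChain C) {R S : OrdRel α}
    (h : Consecutive C R S) : Step R S := by
  obtain ⟨hR, hS, hRS, hcons⟩ := h
  have h1 := ncard_lt_of_ssub hRS
  have h2 := two_mul_le S
  obtain ⟨T, hT, hs⟩ := hC.exists_next hR (by omega)
  have h3 : T.1 ⊆ S.1 := by
    rcases hC.total hT hS with h | h
    · exact h
    · have h4 := hs.ncard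
      have h5 : T.1.ncard ≤ S.1.ncard := by omega
      have := eq_of_sub_of_ncard h h5
      rw [this]
  rcases hcons T hT hs.subset h3 with h | h
  · have := hs.ncard
    rw [h] at this
    omega
  · rw [← h]; exact hs

theorem step_consecutive {C : Set (OrdRel α)} (hC : MaximalChain C) {R S : OrdRel α}
    (hR : R ∈ C) (hS : S ∈ C) (h : Step R S) : Consecutive C R S := by
  refine ⟨hR, hS, ⟨h.subset, ?_⟩, ?_⟩
  · intro hsub
    have h1 := h.ncard
    have h2 := Set.ncard_le_ncard hsub (Set.toFinite _)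
    omega
  · intro T hT h1 h2
    have h3 := Set.ncard_le_ncard h1 (Set.toFinite _)
    have h4 := Set.ncard_le_ncard h2 (Set.toFinite _)
    have h5 := h.ncard
    have h6 : T.1.ncard = R.1.ncard ∨ T.1.ncard = S.1.ncard := by omega
    rcases h6 with h6 | h6
    · exact Or.inl (hC.eq_of_ncard hT hR h6)
    · exact Or.inr (hC.eq_of_ncard hT hS h6)

end MaximalChain

section Finite
variable [Finite α]

/-- a chain having members of all possible sizes is maximal -/
theorem maximalChain_of_levels {C : Set (OrdRel α)}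
    (hC : IsChain (fun R S : OrdRel α => R.1 ⊆ S.1) C)
    (h : ∀ k, Nat.card α ≤ k → 2 * k ≤ Nat.card α ^ 2 + Nat.card α → ∃ R ∈ C, R.1.ncard = k) :
    MaximalChain C := by
  refine ⟨hC, ?_⟩
  intro D hD hCD
  apply Set.Subset.antisymm hCD
  intro X hX
  obtain ⟨R, hR, hRX⟩ := h X.1.ncard (card_le X) (two_mul_le X)
  by_cases hne : X = R
  · rw [hne]; exact hR
  · rcases hD hX (hCD hR) hne with h1 | h1
    · have := eq_of_sub_of_ncard h1 hRX.le
      exact absurd this hne
    · have := eq_of_sub_of_ncard h1 hRX.ge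
      exact absurd this.symm hne

end Finite

/-- a saturated sequence of orders gives a maximal chain -/
theorem maximalChain_of_seq [Finite α] (c : ℕ → OrdRel α) (m : ℕ) (h0 : c 0 = diag α)
    (hs : ∀ i < m, Step (c i) (c (i + 1)))
    (hm : 2 * (c m).1.ncard = Nat.card α ^ 2 + Nat.card α) :
    MaximalChain {R | ∃ i ≤ m, R = c i} := by
  have hcard : ∀ i ≤ m, (c i).1.ncard = Nat.card α + i := by
    intro i
    induction i with
    | zero => intro _; rw [h0, ncard_diag]; rfl
    | succ i ih =>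
      intro hi
      rw [(hs i (by omega)).ncard, ih (by omega)]
      rfl
  have hmono : ∀ j ≤ m, ∀ i ≤ j, (c i).1 ⊆ (c j).1 := by
    intro j
    induction j with
    | zero =>
      intro _ i hi
      rw [Nat.le_zero.mp hi]
    | succ j ih =>
      intro hj i hi
      rcases Nat.of_le_succ hi with h | h
      · exact (ih (by omega) i h).trans (hs j (by omega)).subset
      · rw [h]
  apply maximalChain_of_levels
  · rintro _ ⟨i, hi, rfl⟩ _ ⟨j, hj, rfl⟩ _
    rcases le_total i j with h | h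
    · exact Or.inl (hmono j hj i h)
    · exact Or.inr (hmono i hi j h)
  · intro k hk hk2
    have h1 := hcard m le_rfl
    have h2 : k - Nat.card α ≤ m := by omega
    refine ⟨c (k - Nat.card α), ⟨k - Nat.card α, h2, rfl⟩, ?_⟩
    rw [hcard _ h2]
    omega

end Pool.Agent.MPeb30e1
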