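import Mathlib
import Pool.Agent.MPeb30e1.Chain

set_option autoImplicit false

namespace Pool.Agent.MPeb30e1

variable {α β : Type} [Finite α]

/-- the special step for an even number of points -/
theorem fpp_pred {R S : OrdRel α} (hs : Step R S) (hS : ¬ FPP S)
    (hn : (Inc S).ncard = Nat.card α) : FPP R := by
  classical
  have h1 : ∀ x : α, ∃ y, (x, y) ∈ Inc S := by
    intro x
    by_contra hx
    push Not at hx
    exact hS (fpp_of_comparable x hx)
  have huniq : ∀ x y z, (x, y) ∈ Inc S → (x, z) ∈ Inc S → y = z := by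
    intro x y z hy hz
    by_contra hne
    have h2 : (Prod.fst '' (Inc S \ {(x, z)})) = Set.univ := by
      ext u
      simp only [Set.mem_univ, iff_true]
      by_cases hu : u = x
      · refine ⟨(x, y), ⟨hy, ?_⟩, hu.symm⟩
        intro h
        exact hne (Prod.mk.inj (Set.mem_singleton_iff.mp h)).2
      · obtain ⟨w, hw⟩ := h1 u
        refine ⟨(u, w), ⟨hw, ?_⟩, rfl⟩
        intro h
        exact hu (Prod.mk.inj (Set.mem_singleton_iff.mp h)).1
    have h3 : (Prod.fst '' (Inc S \ {(x, z)})).ncard ≤ (Inc S \ {(x, z)}).ncard :=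
      Set.ncard_image_le (Set.toFinite _)
    have h4 : (Inc S \ {(x, z)}).ncard < (Inc S).ncard :=
      Set.ncard_sdiff_singleton_lt_of_mem hz (Set.toFinite _)
    rw [h2, Set.ncard_univ] at h3
    omega
  have hsymm : ∀ x y, (x, y) ∈ Inc S → (y, x) ∈ Inc S := fun x y h => ⟨h.2, h.1⟩
  obtain ⟨⟨a, b⟩, hab, hSR⟩ := hs
  have habS : (a, b) ∈ S.1 := by rw [hSR]; exact Or.inl rfl
  have hRS : ∀ p, p ∈ R.1 → p ∈ S.1 := fun p hp => by rw [hSR]; exact Or.inr hp
  have hSR' : ∀ u v, (u, v) ∈ S.1 → (u, v) ≠ (a, b) → (u, v) ∈ R.1 := by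
    intro u v h hne
    rw [hSR] at h
    exact h.resolve_left hne
  have hne_ab : a ≠ b := by
    rintro rfl
    exact hab (R.refl' a)
  obtain ⟨a', ha'⟩ := h1 a
  obtain ⟨b', hb'⟩ := h1 b
  have ha'a : a' ≠ a := by
    rintro rfl
    exact ha'.1 (S.refl' a')
  have hb'b : b' ≠ b := by
    rintro rfl
    exact hb'.1 (S.refl' b')
  have ha'b : a' ≠ b := by
    rintro rfl
    exact ha'.1 habS
  have hb'a : b' ≠ a := by
    rintro rfl
    exact hb'.2 habS
  have hab' : a' ≠ b' := by
    intro h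
    have h3 := hsymm _ _ ha'
    have h4 := hsymm _ _ hb'
    rw [← h] at h4
    exact hne_ab (huniq _ _ _ h3 h4)
  have hS' : (a', b') ∈ S.1 := by
    by_contra hn1
    by_cases h2 : (b', a') ∈ S.1
    · by_cases h3 : (a, b') ∈ S.1
      · exact ha'.1 (S.trans' h3 h2)
      · by_cases h4 : (b', a) ∈ S.1
        · exact hb'.2 (S.trans' h4 habS)
        · exact hab' (huniq a a' b' ha' ⟨h3, h4⟩)
    · have h3 : (a', b') ∈ Inc S := ⟨hn1, h2⟩
      exact hb'a (huniq a' b' a h3 (hsymm _ _ ha'))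
  have hR' : (a', b') ∈ R.1 := hSR' a' b' hS' (fun h => ha'a (Prod.mk.inj h).1)
  apply fpp_of_forall
  intro f hf hinc
  have hfa : f a' = a := by
    have h3 := hinc a'
    have h4 : (a', f a') ∈ Inc S := by
      refine ⟨fun h => h3.1 (hSR' _ _ h (fun h' => ha'a (Prod.mk.inj h').1)),
        fun h => h3.2 (hSR' _ _ h (fun h' => ha'b (Prod.mk.inj h').2))⟩
    exact huniq _ _ _ h4 (hsymm _ _ ha')
  have hfb : f b' = b := by
    have h3 := hinc b'
    have h4 : (b', f b') ∈ Inc S := by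
      refine ⟨fun h => h3.1 (hSR' _ _ h (fun h' => hb'a (Prod.mk.inj h').1)),
        fun h => h3.2 (hSR' _ _ h (fun h' => hb'b (Prod.mk.inj h').2))⟩
    exact huniq _ _ _ h4 (hsymm _ _ hb')
  have := hf a' b' hR'
  rw [hfa, hfb] at this
  exact hab this

theorem div_aux1 (n : ℕ) : (n ^ 2 + n) / 2 - n ^ 2 / 2 = (n + 1) / 2 := by
  obtain ⟨p, hp | hp⟩ := Nat.even_or_odd' n
  · subst hp
    have e1 : (2 * p) ^ 2 + 2 * p = 2 * (2 * p ^ 2 + p) := by ring
    have e2 : (2 * p) ^ 2 = 2 * (2 * p ^ 2) := by ring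
    rw [e1, e2]
    omega
  · subst hp
    have e1 : (2 * p + 1) ^ 2 + (2 * p + 1) = 2 * (2 * p ^ 2 + 3 * p + 1) := by ring
    have e2 : (2 * p + 1) ^ 2 = 2 * (2 * p ^ 2 + 2 * p) + 1 := by ring
    rw [e1, e2]
    omega

/-- lower bound for the number of members with the FPP -/
theorem fpp_count_lower {C : Set (OrdRel α)} (hC : MaximalChain C) (hn : 1 ≤ Nat.card α) :
    (if Nat.card α = 2 then 1 else Nat.card α / 2 + 1) ≤ {R | R ∈ C ∧ FPP R}.ncard := by
  classical
  have hfinite : Finite (OrdRel α) := Subtype.finite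
  set n := Nat.card α with hn'
  have hex : ∀ k : ℕ, ∃ R : OrdRel α, n ≤ k → 2 * k ≤ n ^ 2 + n → R ∈ C ∧ R.1.ncard = k := by
    intro k
    by_cases h : n ≤ k ∧ 2 * k ≤ n ^ 2 + n
    · obtain ⟨R, hR⟩ := hC.exists_level k h.1 h.2
      exact ⟨R, fun _ _ => hR⟩
    · exact ⟨diag α, fun h1 h2 => absurd ⟨h1, h2⟩ h⟩
  choose M hM using hex
  have hnn : n ≤ n ^ 2 / 2 + 1 := by
    rcases Nat.lt_or_ge n 2 with h | h
    · omega
    · have : 2 * n ≤ n ^ 2 := by nlinarith
      omega
  -- the levels which certainly have the FPP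
  set K : Finset ℕ := Finset.Icc (n ^ 2 / 2 + 1) ((n ^ 2 + n) / 2) with hK
  have hKM : ∀ k ∈ K, M k ∈ {R | R ∈ C ∧ FPP R} ∧ (M k).1.ncard = k := by
    intro k hk
    rw [hK, Finset.mem_Icc] at hk
    obtain ⟨h1, h2⟩ := hM k (by omega) (by omega)
    refine ⟨⟨h1, fpp_of_large ?_⟩, h2⟩
    rw [h2, ← hn']
    omega
  have hKcard : K.card = (n + 1) / 2 := by
    rw [hK, Nat.card_Icc, ← div_aux1 n]
    omega
  have key : ∀ K' : Finset ℕ, (∀ k ∈ K', M k ∈ {R | R ∈ C ∧ FPP R} ∧ (M k).1.ncard = k) →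
      K'.card ≤ {R | R ∈ C ∧ FPP R}.ncard := by
    intro K' hK'
    have hinj : Set.InjOn M (K' : Set ℕ) := by
      intro k hk l hl hkl
      rw [← (hK' k hk).2, ← (hK' l hl).2, hkl]
    rw [← Set.ncard_coe_finset K', ← hinj.ncard_image]
    apply Set.ncard_le_ncard _ (Set.toFinite _)
    rintro _ ⟨k, hk, rfl⟩
    exact (hK' k hk).1
  split_ifs with h2
  · have := key K hKM
    rw [hKcard, h2] at this
    omega
  · obtain ⟨p, hp | hp⟩ := Nat.even_or_odd' n
    · -- even case
      have hp2 : 2 ≤ p := by omega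
      have e2 : n ^ 2 = 2 * (2 * p ^ 2) := by rw [hp]; ring
      have hpp : 2 * p ≤ p ^ 2 := by nlinarith
      obtain ⟨hS, hScard⟩ := hM (2 * p ^ 2) (by omega) (by omega)
      obtain ⟨hR, hRcard⟩ := hM (2 * p ^ 2 - 1) (by omega) (by omega)
      have hextra : ∃ k, k ∉ K ∧ M k ∈ {R | R ∈ C ∧ FPP R} ∧ (M k).1.ncard = k := by
        by_cases hF : FPP (M (2 * p ^ 2))
        · refine ⟨2 * p ^ 2, ?_, ⟨hS, hF⟩, hScard⟩
          rw [hK, Finset.mem_Icc]
          omega
        · refine ⟨2 * p ^ 2 - 1, ?_, ⟨hR, ?_⟩, hRcard⟩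
          · rw [hK, Finset.mem_Icc]
            omega
          · obtain ⟨T, hT, hstep⟩ := hC.exists_next hR (by rw [hRcard, ← hn']; omega)
            have hTS : T = M (2 * p ^ 2) := by
              apply hC.eq_of_ncard hT hS
              rw [hstep.ncard, hRcard, hScard]
              omega
            rw [hTS] at hstep
            apply fpp_pred hstep hF
            have := count_eq (M (2 * p ^ 2))
            rw [hScard, ← hn'] at this
            omega
      obtain ⟨k, hkK, hk⟩ := hextra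
      have := key (insert k K) (by
        intro l hl
        rw [Finset.mem_insert] at hl
        rcases hl with rfl | hl
        · exact hk
        · exact hKM l hl)
      rw [Finset.card_insert_of_notMem hkK, hKcard] at this
      omega
    · have := key K hKM
      rw [hKcard] at this
      omega

theorem div_aux2 (n : ℕ) (hn : 2 ≤ n) : (n ^ 2 / 2 - (2 * n - 2)) / 2 = (n - 2) ^ 2 / 4 := by
  obtain ⟨m, rfl⟩ := Nat.exists_eq_add_of_le hn
  have e1 : (2 + m) ^ 2 = m ^ 2 + 4 * m + 4 := by ring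
  rw [e1, show 2 + m - 2 = m by omega]
  omega

/-- upper bound for the number of switches -/
theorem flip_count_upper {C : Set (OrdRel α)} (hC : MaximalChain C) (hn : 1 ≤ Nat.card α) :
    {p : OrdRel α × OrdRel α | Consecutive C p.1 p.2 ∧ ¬ FPP p.1 ∧ FPP p.2}.ncard ≤
      (if Nat.card α = 1 then 0 else (Nat.card α - 2) ^ 2 / 4 + 1) := by
  classical
  have hfinite : Finite (OrdRel α) := Subtype.finite
  set n := Nat.card α with hn'
  split_ifs with h1
  · rw [Nat.le_zero, Set.ncard_eq_zero (Set.toFinite _), Set.eq_empty_iff_forall_notMem]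
    rintro ⟨R, S⟩ ⟨hcons, _, _⟩
    have h2 := (hC.consecutive_step hcons).ncard
    have h3 := card_le R
    have h4 := two_mul_le S
    rw [← hn', h1] at h3 h4
    simp only at h2
    omega
  · have hn2 : 2 ≤ n := by omega
    have hne : Nonempty α := by
      rw [← not_isEmpty_iff]
      intro h
      have : Nat.card α = 0 := Nat.card_of_isEmpty
      omega
    rw [← div_aux2 n hn2]
    have hprop : ∀ p ∈ {p : OrdRel α × OrdRel α | Consecutive C p.1 p.2 ∧ ¬ FPP p.1 ∧ FPP p.2},
        2 * n - 2 ≤ p.1.1.ncard ∧ p.1.1.ncard ≤ n ^ 2 / 2 ∧ Step p.1 p.2 := by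
      rintro ⟨R, S⟩ ⟨hcons, hR, hS⟩
      have hst := hC.consecutive_step hcons
      refine ⟨?_, ?_, hst⟩
      · by_contra hlt
        refine not_fpp_of_small hne ?_ hS
        have := hst.ncard
        simp only at *
        omega
      · by_contra hlt
        refine hR (fpp_of_large ?_)
        rw [← hn']
        simp only at *
        omega
    have hmaps : ∀ p ∈ {p : OrdRel α × OrdRel α | Consecutive C p.1 p.2 ∧ ¬ FPP p.1 ∧ FPP p.2},
        (p.1.1.ncard - (2 * n - 2)) / 2 ∈
          ((Finset.range ((n ^ 2 / 2 - (2 * n - 2)) / 2 + 1) : Finset ℕ) : Set ℕ) := by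
      intro p hp
      obtain ⟨ha, hb, _⟩ := hprop p hp
      rw [Finset.mem_coe, Finset.mem_range]
      omega
    have hcard := Set.ncard_le_ncard_of_injOn _ hmaps (by
      rintro ⟨R, S⟩ hp ⟨R', S'⟩ hq heq
      obtain ⟨ha, hb, hst⟩ := hprop _ hp
      obtain ⟨ha', hb', hst'⟩ := hprop _ hq
      obtain ⟨hcons, hR, hS⟩ := hp
      obtain ⟨hcons', hR', hS'⟩ := hq
      simp only at *
      have h5 := hst.ncard
      have h6 := hst'.ncard
      have h7 : R.1.ncard = R'.1.ncard ∨ R'.1.ncard = R.1.ncard + 1 ∨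
        R.1.ncard = R'.1.ncard + 1 := by omega
      rcases h7 with h7 | h7 | h7
      · have e1 := hC.eq_of_ncard hcons.1 hcons'.1 h7
        have e2 := hC.eq_of_ncard hcons.2.1 hcons'.2.1 (by omega : S.1.ncard = S'.1.ncard)
        rw [e1, e2]
      · have e1 := hC.eq_of_ncard hcons'.1 hcons.2.1 (by omega : R'.1.ncard = S.1.ncard)
        rw [e1] at hR'
        exact absurd hS hR'
      · have e1 := hC.eq_of_ncard hcons.1 hcons'.2.1 (by omega : R.1.ncard = S'.1.ncard)
        rw [e1] at hR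
        exact absurd hS' hR) (Set.toFinite _)
    rw [Set.ncard_coe_finset, Finset.card_range] at hcard
    exact hcard

end Pool.Agent.MPeb30e1
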