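import Mathlib
import Pool.Agent.MPeb30e1.Bounds

set_option autoImplicit false

namespace Pool.Agent.MPeb30e1

variable {α β : Type}

/-- saturated path; at most `p` members after the first one have the FPP -/
inductive PA : OrdRel α → OrdRel α → ℕ → Prop
  | refl (R : OrdRel α) : PA R R 0
  | non {R S T : OrdRel α} {p : ℕ} : PA R S p → Step S T → ¬ FPP T → PA R T p
  | any {R S T : OrdRel α} {p : ℕ} : PA R S p → Step S T → PA R T (p + 1)

/-- saturated path; at least `p` switches from non-FPP to FPP -/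
inductive PB : OrdRel α → OrdRel α → ℕ → Prop
  | refl (R : OrdRel α) : PB R R 0
  | flip {R S T : OrdRel α} {p : ℕ} : PB R S p → Step S T → ¬ FPP S → FPP T → PB R T (p + 1)
  | any {R S T : OrdRel α} {p : ℕ} : PB R S p → Step S T → PB R T p

theorem PA.trans {R S T : OrdRel α} {p q : ℕ} (h : PA R S p) (h' : PA S T q) :
    PA R T (p + q) := by
  induction h' with
  | refl => exact h
  | non _ hs hn ih => exact ih.non hs hn
  | any _ hs ih => exact ih.any hs

theorem PB.trans {R S T : OrdRel α} {p q : ℕ} (h : PB R S p) (h' : PB S T q) :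
    PB R T (p + q) := by
  induction h' with
  | refl => exact h
  | flip _ hs hn hf ih => exact ih.flip hs hn hf
  | any _ hs ih => exact ih.any hs

theorem PB.zero {R S : OrdRel α} {p : ℕ} (h : PB R S p) : PB R S 0 := by
  induction h with
  | refl => exact PB.refl _
  | flip _ hs _ _ ih => exact ih.any hs
  | any _ hs ih => exact ih.any hs

theorem PB.one {R S : OrdRel α} {p : ℕ} (h : PB R S p) (h1 : ¬ FPP R) (h2 : FPP S) :
    PB R S 1 := by
  induction h with
  | refl => exact absurd h2 h1
  | @flip S' T p h hs hn hf ih => exact h.zero.flip hs hn hf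
  | @any S' T p h hs ih =>
    by_cases hF : FPP S'
    · exact (ih hF).any hs
    · exact h.zero.flip hs hF h2

section Finite
variable [Finite α]

theorem exists_PB : ∀ (k : ℕ) (R S : OrdRel α), S.1.ncard ≤ R.1.ncard + k → R.1 ⊆ S.1 →
    PB R S 0 := by
  intro k
  induction k with
  | zero =>
    intro R S h hsub
    rw [eq_of_sub_of_ncard hsub h]
    exact PB.refl _
  | succ k ih =>
    intro R S h hsub
    by_cases hss : S.1 ⊆ R.1
    · rw [OrdRel.ext' (Set.Subset.antisymm hsub hss)]
      exact PB.refl _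
    · obtain ⟨T, hT, hTS⟩ := exists_step_le (R := R) (S := S) ⟨hsub, hss⟩
      have h1 := ih T S (by rw [hT.ncard]; omega) hTS
      exact ((PB.refl R).any hT).trans h1

theorem exists_PA : ∀ (k : ℕ) (R S : OrdRel α), S.1.ncard ≤ R.1.ncard + k → R.1 ⊆ S.1 →
    ∃ p ≤ k, PA R S p := by
  intro k
  induction k with
  | zero =>
    intro R S h hsub
    rw [eq_of_sub_of_ncard hsub h]
    exact ⟨0, le_rfl, PA.refl _⟩
  | succ k ih =>
    intro R S h hsub
    by_cases hss : S.1 ⊆ R.1
    · rw [OrdRel.ext' (Set.Subset.antisymm hsub hss)]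
      exact ⟨0, Nat.zero_le _, PA.refl _⟩
    · obtain ⟨T, hT, hTS⟩ := exists_step_le (R := R) (S := S) ⟨hsub, hss⟩
      obtain ⟨p, hp, h1⟩ := ih T S (by rw [hT.ncard]; omega) hTS
      exact ⟨0 + 1 + p, by omega, ((PA.refl R).any hT).trans h1⟩

/-- every order extends to a total one -/
theorem exists_total : ∀ (k : ℕ) (R : OrdRel α), (Inc R).ncard ≤ k →
    ∃ L : OrdRel α, R.1 ⊆ L.1 ∧ 2 * L.1.ncard = Nat.card α ^ 2 + Nat.card α := by
  intro k
  induction k with
  | zero =>
    intro R h
    refine ⟨R, subset_rfl, ?_⟩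
    have := count_eq R
    omega
  | succ k ih =>
    intro R h
    by_cases h0 : (Inc R).ncard = 0
    · refine ⟨R, subset_rfl, ?_⟩
      have := count_eq R
      omega
    · obtain ⟨T, hT⟩ := exists_step ((Set.ncard_pos (Set.toFinite _)).mp (Nat.pos_of_ne_zero h0))
      have h1 := count_eq R
      have h2 := count_eq T
      have h3 := hT.ncard
      obtain ⟨L, hL, hL2⟩ := ih T (by omega)
      exact ⟨L, hT.subset.trans hL, hL2⟩

theorem fpp_of_total [Nonempty α] {L : OrdRel α}
    (hL : 2 * L.1.ncard = Nat.card α ^ 2 + Nat.card α) : FPP L := by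
  apply fpp_of_large
  have : 0 < Nat.card α := Nat.card_pos
  omega

end Finite

/-! ### Sequences -/

theorem PA.seq {R S : OrdRel α} {p : ℕ} (h : PA R S p) :
    ∃ (c : ℕ → OrdRel α) (m : ℕ), c 0 = R ∧ c m = S ∧ (∀ i < m, Step (c i) (c (i + 1))) ∧
      {i | i < m ∧ FPP (c (i + 1))}.ncard ≤ p := by
  classical
  induction h with
  | refl => exact ⟨fun _ => R, 0, rfl, rfl, by simp, by simp⟩
  | @non S' T p h hs hn ih =>
    obtain ⟨c, m, h0, hm, hst, hc⟩ := ih
    refine ⟨fun i => if i ≤ m then c i else T, m + 1, by simp [h0], by simp, ?_, ?_⟩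
    · intro i hi
      by_cases him : i = m
      · subst him
        simp only [le_refl, if_true, show ¬ (i + 1 ≤ i) by omega, if_false]
        rw [hm]; exact hs
      · have h1 : i < m := by omega
        simp only [h1.le, if_true, show i + 1 ≤ m by omega]
        exact hst i h1
    · refine le_trans (Set.ncard_le_ncard ?_ ?_) hc
      · rintro i ⟨hi, hF⟩
        by_cases him : i = m
        · subst him
          simp only [show ¬ (i + 1 ≤ i) by omega, if_false] at hF
          exact absurd hF hn
        · have h1 : i < m := by omega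
          simp only [show i + 1 ≤ m by omega, if_true] at hF
          exact ⟨h1, hF⟩
      · exact (Set.finite_lt_nat m).subset (fun i hi => hi.1)
  | @any S' T p h hs ih =>
    obtain ⟨c, m, h0, hm, hst, hc⟩ := ih
    refine ⟨fun i => if i ≤ m then c i else T, m + 1, by simp [h0], by simp, ?_, ?_⟩
    · intro i hi
      by_cases him : i = m
      · subst him
        simp only [le_refl, if_true, show ¬ (i + 1 ≤ i) by omega, if_false]
        rw [hm]; exact hs
      · have h1 : i < m := by omega
        simp only [h1.le, if_true, show i + 1 ≤ m by omega]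
        exact hst i h1
    · have hfin : {i | i < m ∧ FPP (c (i + 1))}.Finite :=
        (Set.finite_lt_nat m).subset (fun i hi => hi.1)
      refine le_trans (Set.ncard_le_ncard (t := insert m {i | i < m ∧ FPP (c (i + 1))}) ?_ ?_) ?_
      · rintro i ⟨hi, hF⟩
        by_cases him : i = m
        · exact Or.inl him
        · right
          simp only [show i + 1 ≤ m by omega, if_true] at hF
          exact ⟨by omega, hF⟩
      · exact hfin.insert m
      · exact (Set.ncard_insert_le _ _).trans (by omega)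

theorem PB.seq {R S : OrdRel α} {p : ℕ} (h : PB R S p) :
    ∃ (c : ℕ → OrdRel α) (m : ℕ), c 0 = R ∧ c m = S ∧ (∀ i < m, Step (c i) (c (i + 1))) ∧
      p ≤ {i | i < m ∧ ¬ FPP (c i) ∧ FPP (c (i + 1))}.ncard := by
  classical
  induction h with
  | refl => exact ⟨fun _ => R, 0, rfl, rfl, by simp, by simp⟩
  | @flip S' T p h hs hn hf ih =>
    obtain ⟨c, m, h0, hm, hst, hc⟩ := ih
    refine ⟨fun i => if i ≤ m then c i else T, m + 1, by simp [h0], by simp, ?_, ?_⟩
    · intro i hi
      by_cases him : i = m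
      · subst him
        simp only [le_refl, if_true, show ¬ (i + 1 ≤ i) by omega, if_false]
        rw [hm]; exact hs
      · have h1 : i < m := by omega
        simp only [h1.le, if_true, show i + 1 ≤ m by omega]
        exact hst i h1
    · have hfin : {i | i < m ∧ ¬ FPP (c i) ∧ FPP (c (i + 1))}.Finite :=
        (Set.finite_lt_nat m).subset (fun i hi => hi.1)
      have hnot : m ∉ {i | i < m ∧ ¬ FPP (c i) ∧ FPP (c (i + 1))} := fun h => absurd h.1 (by omega)
      have h1 : p + 1 ≤ (insert m {i | i < m ∧ ¬ FPP (c i) ∧ FPP (c (i + 1))}).ncard := by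
        rw [Set.ncard_insert_of_notMem hnot hfin]
        omega
      refine h1.trans (Set.ncard_le_ncard ?_ ?_)
      · rintro i (hi | ⟨hi, hF⟩)
        · subst hi
          refine ⟨by omega, ?_⟩
          simp only [le_refl, if_true, show ¬ (i + 1 ≤ i) by omega, if_false]
          rw [hm]
          exact ⟨hn, hf⟩
        · refine ⟨by omega, ?_⟩
          simp only [hi.le, if_true, show i + 1 ≤ m by omega]
          exact hF
      · exact (Set.finite_lt_nat (m + 1)).subset (fun i hi => hi.1)
  | @any S' T p h hs ih =>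
    obtain ⟨c, m, h0, hm, hst, hc⟩ := ih
    refine ⟨fun i => if i ≤ m then c i else T, m + 1, by simp [h0], by simp, ?_, ?_⟩
    · intro i hi
      by_cases him : i = m
      · subst him
        simp only [le_refl, if_true, show ¬ (i + 1 ≤ i) by omega, if_false]
        rw [hm]; exact hs
      · have h1 : i < m := by omega
        simp only [h1.le, if_true, show i + 1 ≤ m by omega]
        exact hst i h1
    · refine hc.trans (Set.ncard_le_ncard ?_ ?_)
      · rintro i ⟨hi, hF⟩
        refine ⟨by omega, ?_⟩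
        simp only [hi.le, if_true, show i + 1 ≤ m by omega]
        exact hF
      · exact (Set.finite_lt_nat (m + 1)).subset (fun i hi => hi.1)

/-! ### Transport -/

/-- transport of an order along a bijection -/
def mapO (e : α ≃ β) (R : OrdRel α) : OrdRel β :=
  ⟨{p | (e.symm p.1, e.symm p.2) ∈ R.1}, fun _ => R.refl' _,
    fun _ _ h h' => e.symm.injective (R.antisymm' h h'),
    fun _ _ _ h h' => R.trans' h h'⟩

theorem mem_mapO {e : α ≃ β} {R : OrdRel α} {a b : β} :
    (a, b) ∈ (mapO e R).1 ↔ (e.symm a, e.symm b) ∈ R.1 := Iff.rfl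

theorem mapO_fpp (e : α ≃ β) (R : OrdRel α) : FPP (mapO e R) ↔ FPP R := by
  constructor
  · intro h f hf
    obtain ⟨x, hx⟩ := h (fun z => e (f (e.symm z))) (by
      intro a b hab
      rw [mem_mapO] at hab ⊢
      rw [e.symm_apply_apply, e.symm_apply_apply]
      exact hf _ _ hab)
    refine ⟨e.symm x, e.injective ?_⟩
    rw [e.apply_symm_apply]
    exact hx
  · intro h f hf
    obtain ⟨x, hx⟩ := h (fun z => e.symm (f (e z))) (by
      intro a b hab
      apply hf
      rw [mem_mapO, e.symm_apply_apply, e.symm_apply_apply]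
      exact hab)
    refine ⟨e x, e.symm.injective ?_⟩
    rw [e.symm_apply_apply]
    exact hx

theorem mapO_step (e : α ≃ β) {R S : OrdRel α} (h : Step R S) : Step (mapO e R) (mapO e S) := by
  obtain ⟨⟨a, b⟩, h1, h2⟩ := h
  refine ⟨(e a, e b), ?_, ?_⟩
  · intro h3
    rw [mem_mapO, e.symm_apply_apply, e.symm_apply_apply] at h3
    exact h1 h3
  · ext ⟨c, d⟩
    rw [mem_mapO, h2, Set.mem_insert_iff, Set.mem_insert_iff, mem_mapO, Prod.mk.injEq,
      Prod.mk.injEq, e.symm_apply_eq, e.symm_apply_eq]

theorem mapO_diag (e : α ≃ β) : mapO e (diag α) = diag β := by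
  apply OrdRel.ext'
  ext ⟨c, d⟩
  show e.symm c = e.symm d ↔ c = d
  rw [e.symm.injective.eq_iff]

theorem mapO_ncard (e : α ≃ β) (R : OrdRel α) : (mapO e R).1.ncard = R.1.ncard := by
  have : (mapO e R).1 = (fun p : α × α => (e p.1, e p.2)) '' R.1 := by
    ext ⟨c, d⟩
    constructor
    · intro h
      exact ⟨(e.symm c, e.symm d), h, by simp⟩
    · rintro ⟨⟨a, b⟩, h, hab⟩
      rw [Prod.mk.injEq] at hab
      rw [← hab.1, ← hab.2, mem_mapO, e.symm_apply_apply, e.symm_apply_apply]
      exact h
  rw [this, Set.ncard_image_of_injective]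
  rintro ⟨a, b⟩ ⟨c, d⟩ h
  rw [Prod.mk.injEq] at h
  exact Prod.ext (e.injective h.1) (e.injective h.2)

theorem PA.map (e : α ≃ β) {R S : OrdRel α} {p : ℕ} (h : PA R S p) :
    PA (mapO e R) (mapO e S) p := by
  induction h with
  | refl => exact PA.refl _
  | non _ hs hn ih => exact ih.non (mapO_step e hs) (fun h => hn ((mapO_fpp e _).mp h))
  | any _ hs ih => exact ih.any (mapO_step e hs)

theorem PB.map (e : α ≃ β) {R S : OrdRel α} {p : ℕ} (h : PB R S p) :
    PB (mapO e R) (mapO e S) p := by
  induction h with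
  | refl => exact PB.refl _
  | flip _ hs hn hf ih =>
    exact ih.flip (mapO_step e hs) (fun h => hn ((mapO_fpp e _).mp h)) ((mapO_fpp e _).mpr hf)
  | any _ hs ih => exact ih.any (mapO_step e hs)

/-! ### From paths to maximal chains -/

theorem chain_of_PA [Finite α] {L : OrdRel α} {p : ℕ} (h : PA (diag α) L p)
    (hL : 2 * L.1.ncard = Nat.card α ^ 2 + Nat.card α) (hd : ¬ FPP (diag α)) :
    ∃ C : Set (OrdRel α), MaximalChain C ∧ {R | R ∈ C ∧ FPP R}.ncard ≤ p := by
  obtain ⟨c, m, h0, hm, hst, hc⟩ := h.seq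
  refine ⟨{R | ∃ i ≤ m, R = c i}, maximalChain_of_seq c m h0 hst (by rw [hm]; exact hL), ?_⟩
  have hfin : {i | i < m ∧ FPP (c (i + 1))}.Finite :=
    (Set.finite_lt_nat m).subset (fun i hi => hi.1)
  have hsub : {R | R ∈ {R | ∃ i ≤ m, R = c i} ∧ FPP R} ⊆
      (fun i => c (i + 1)) '' {i | i < m ∧ FPP (c (i + 1))} := by
    rintro R ⟨⟨i, hi, rfl⟩, hF⟩
    rcases i with _ | i
    · rw [h0] at hF
      exact absurd hF hd
    · exact ⟨i, ⟨by omega, hF⟩, rfl⟩
  exact (Set.ncard_le_ncard hsub (hfin.image _)).trans ((Set.ncard_image_le hfin).trans hc)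

theorem chain_of_PB [Finite α] {L : OrdRel α} {p : ℕ} (h : PB (diag α) L p)
    (hL : 2 * L.1.ncard = Nat.card α ^ 2 + Nat.card α) :
    ∃ C : Set (OrdRel α), MaximalChain C ∧
      p ≤ {q : OrdRel α × OrdRel α | Consecutive C q.1 q.2 ∧ ¬ FPP q.1 ∧ FPP q.2}.ncard := by
  obtain ⟨c, m, h0, hm, hst, hc⟩ := h.seq
  have hmax := maximalChain_of_seq c m h0 hst (by rw [hm]; exact hL)
  refine ⟨_, hmax, ?_⟩
  have hcard : ∀ i ≤ m, (c i).1.ncard = Nat.card α + i := by
    intro i
    induction i with
    | zero => intro _; rw [h0, ncard_diag]; rfl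
    | succ i ih =>
      intro hi
      rw [(hst i (by omega)).ncard, ih (by omega)]
      rfl
  have hinj : Set.InjOn (fun i => (c i, c (i + 1))) {i | i < m ∧ ¬ FPP (c i) ∧ FPP (c (i + 1))} := by
    intro i hi j hj hij
    rw [Prod.mk.injEq] at hij
    have h1 := hcard i hi.1.le
    have h2 := hcard j hj.1.le
    rw [hij.1] at h1
    omega
  have hfinite : Finite (OrdRel α) := Subtype.finite
  refine hc.trans ?_
  rw [← hinj.ncard_image]
  apply Set.ncard_le_ncard _ (Set.toFinite _)
  rintro _ ⟨i, ⟨hi, hn, hF⟩, rfl⟩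
  exact ⟨hmax.step_consecutive ⟨i, hi.le, rfl⟩ ⟨i + 1, hi, rfl⟩ (hst i hi), hn, hF⟩

end Pool.Agent.MPeb30e1
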