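import Mathlib
import Pool.Agent.MPeb30e1.Paths

set_option autoImplicit false

namespace Pool.Agent.MPeb30e1

variable {α : Type}

/-- relation on `α ⊕ Bool`: `inr false` above everything but `inr true`, and `inr true` above `B` -/
def stageRel (R : Set (α × α)) (B : Set α) : α ⊕ Bool → α ⊕ Bool → Prop
  | Sum.inl a, Sum.inl b => (a, b) ∈ R
  | Sum.inl a, Sum.inr true => a ∈ B
  | Sum.inl _, Sum.inr false => True
  | Sum.inr z, Sum.inr w => z = w
  | Sum.inr _, Sum.inl _ => False

/-- the stage order -/
def stage (R : OrdRel α) (B : Set α) (hB : ∀ a b, (a, b) ∈ R.1 → b ∈ B → a ∈ B) :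
    OrdRel (α ⊕ Bool) :=
  ⟨{p | stageRel R.1 B p.1 p.2}, by
    refine ⟨?_, ?_, ?_⟩
    · rintro (a | z)
      · exact R.refl' a
      · exact rfl
    · rintro (a | z) (b | w) h h'
      · exact congrArg _ (R.antisymm' h h')
      · exact h'.elim
      · exact h.elim
      · exact congrArg _ h
    · rintro (a | z) (b | w) (c | v) h h'
      · exact R.trans' h h'
      · rcases v with _ | _
        · exact trivial
        · exact hB a b h h'
      · exact h'.elim
      · have h2 : w = v := h'
        rw [← h2]; exact h
      · exact h.elim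
      · exact h.elim
      · exact h'.elim
      · have h1 : z = w := h
        have h2 : w = v := h'
        show z = v
        rw [h1, h2]⟩

theorem mem_stage {R : OrdRel α} {B : Set α} {hB} {u v : α ⊕ Bool} :
    (u, v) ∈ (stage R B hB).1 ↔ stageRel R.1 B u v := Iff.rfl

/-- `R ⊕ A₂` -/
def lift (R : OrdRel α) : OrdRel (α ⊕ Bool) := stage R Set.univ (fun _ _ _ _ => trivial)

theorem stage_step_pair {R S : OrdRel α} {B : Set α} {hB hB'} (h : Step R S) :
    Step (stage R B hB) (stage S B hB') := by
  obtain ⟨⟨a, b⟩, h1, h2⟩ := h
  refine ⟨(Sum.inl a, Sum.inl b), h1, ?_⟩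
  ext ⟨u, v⟩
  rw [Set.mem_insert_iff, mem_stage, mem_stage, h2]
  rcases u with c | z <;> rcases v with d | w
  · simp [stageRel]
  · cases w <;> simp [stageRel]
  · simp [stageRel]
  · simp [stageRel]

theorem stage_step_top {R R' : OrdRel α} (hR : R = R') {B : Set α} {r : α} {hB hB'} (h : r ∉ B) :
    Step (stage R B hB) (stage R' (insert r B) hB') := by
  subst hR
  refine ⟨(Sum.inl r, Sum.inr true), h, ?_⟩
  ext ⟨u, v⟩
  rw [Set.mem_insert_iff, mem_stage, mem_stage]
  rcases u with c | z <;> rcases v with d | w
  · simp [stageRel]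
  · cases w <;> simp [stageRel]
  · simp [stageRel]
  · simp [stageRel]

theorem lift_step {R S : OrdRel α} (h : Step R S) : Step (lift R) (lift S) := stage_step_pair h

theorem lift_fpp [Finite α] (R : OrdRel α) : FPP (lift R) ↔ FPP R := by
  constructor
  · intro h f hf
    by_contra hn
    obtain ⟨x, hx⟩ := h (fun u => Sum.elim (fun a => Sum.inl (f a)) (fun z => Sum.inr (!z)) u) (by
      rintro (a | z) (b | w) hab
      · exact hf a b hab
      · cases w
        · exact trivial
        · exact trivial
      · exact hab.elim
      · have h1 : z = w := hab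
        show (!z) = !w
        rw [h1])
    rcases x with a | z
    · exact hn ⟨a, Sum.inl.inj hx⟩
    · have := Sum.inr.inj hx
      cases z <;> simp at this
  · intro h
    apply fpp_of_forall
    intro f hf hinc
    have h1 : ∀ a : α, ∃ b : α, f (Sum.inl a) = Sum.inl b := by
      intro a
      have h2 := hinc (Sum.inl a)
      rcases hfa : f (Sum.inl a) with b | z
      · exact ⟨b, rfl⟩
      · rw [hfa] at h2
        exfalso
        cases z
        · exact h2.1 trivial
        · exact h2.1 trivial
    choose g hg using h1
    obtain ⟨x, hx⟩ := h g (by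
      intro a b hab
      have h3 := hf (Sum.inl a) (Sum.inl b) hab
      rw [hg, hg] at h3
      exact h3)
    have h4 := hinc (Sum.inl x)
    rw [hg, hx] at h4
    exact h4.1 (R.refl' x)

theorem PA.lift [Finite α] {R S : OrdRel α} {p : ℕ} (h : PA R S p) :
    PA (lift R) (lift S) p := by
  induction h with
  | refl => exact PA.refl _
  | non _ hs hn ih => exact ih.non (lift_step hs) (fun h => hn ((lift_fpp _).mp h))
  | any _ hs ih => exact ih.any (lift_step hs)

theorem PB.lift [Finite α] {R S : OrdRel α} {p : ℕ} (h : PB R S p) :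
    PB (lift R) (lift S) p := by
  induction h with
  | refl => exact PB.refl _
  | flip _ hs hn hf ih =>
    exact ih.flip (lift_step hs) (fun h => hn ((lift_fpp _).mp h)) ((lift_fpp _).mpr hf)
  | any _ hs ih => exact ih.any (lift_step hs)

/-- all elements of `B` are put below `y` -/
def starB (B : Set α) (y : α) : OrdRel α :=
  ⟨{p | p.1 = p.2 ∨ (p.1 ∈ B ∧ p.2 = y)}, by
    refine ⟨fun a => Or.inl rfl, ?_, ?_⟩
    · rintro a b (h | ⟨_, h⟩) (h' | ⟨_, h'⟩)
      · exact h
      · exact h
      · exact h'.symm
      · have h1 : b = y := h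
        have h2 : a = y := h'
        rw [h1, h2]
    · rintro a b c (h | ⟨h1, h2⟩) (h' | ⟨h1', h2'⟩)
      · exact Or.inl (Eq.trans h h')
      · have h3 : a = b := h
        rw [h3]
        exact Or.inr ⟨h1', h2'⟩
      · have h3 : b = c := h'
        rw [← h3]
        exact Or.inr ⟨h1, h2⟩
      · exact Or.inr ⟨h1, h2'⟩⟩

theorem mem_starB {B : Set α} {y a b : α} : (a, b) ∈ (starB B y).1 ↔ (a = b ∨ (a ∈ B ∧ b = y)) :=
  Iff.rfl

theorem starB_closed (B : Set α) (y : α) : ∀ a b, (a, b) ∈ (starB B y).1 → b ∈ B → a ∈ B := by
  rintro a b (h | ⟨h, _⟩) hb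
  · have h' : a = b := h
    rw [h']; exact hb
  · exact h

theorem starB_closed' (B : Set α) (r y : α) :
    ∀ a b, (a, b) ∈ (starB B y).1 → b ∈ insert r B → a ∈ insert r B := by
  rintro a b (h | ⟨h, _⟩) hb
  · have h' : a = b := h
    rw [h']; exact hb
  · exact Or.inr h

theorem starB_singleton (y : α) : starB {y} y = starB ∅ y := by
  apply OrdRel.ext'
  ext ⟨a, b⟩
  rw [mem_starB, mem_starB]
  constructor
  · rintro (h | ⟨h, h'⟩)
    · exact Or.inl h
    · exact Or.inl (h.trans h'.symm)
  · rintro (h | ⟨h, _⟩)
    · exact Or.inl h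
    · exact h.elim

theorem not_fpp_starB {x y : α} (hxy : x ≠ y) : ¬ FPP (starB {z | z ≠ x} y) := by
  classical
  intro h
  obtain ⟨z, hz⟩ := h (fun z => if z = x then y else x) (by
    rintro a b (h | ⟨h, h'⟩)
    · have h' : a = b := h
      rw [h']
      exact Or.inl rfl
    · have h1 : a ≠ x := h
      have h2 : b = y := h'
      rw [h2]
      simp only [h1, if_false, hxy.symm]
      exact Or.inl rfl)
  by_cases hzx : z = x
  · simp only [hzx, if_true] at hz
    exact hxy hz.symm
  · simp only [hzx, if_false] at hz
    exact hzx hz.symm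

theorem stage_fpp [Finite α] {B : Set α} {y : α} (hy : y ∈ B) :
    FPP (stage (starB B y) B (starB_closed B y)) := by
  apply fpp_of_forall
  intro f hf hinc
  have h1 : f (Sum.inr false) = Sum.inr true := by
    have h2 := hinc (Sum.inr false)
    rcases hfa : f (Sum.inr false) with b | z
    · rw [hfa] at h2
      exact (h2.2 trivial).elim
    · rw [hfa] at h2
      cases z
      · exact (h2.1 rfl).elim
      · rfl
  have h3 := hf (Sum.inl y) (Sum.inr false) trivial
  rw [h1] at h3
  have h4 := hinc (Sum.inl y)
  rcases hfa : f (Sum.inl y) with b | z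
  · rw [hfa] at h3 h4
    have h5 : b ∈ B := h3
    exact h4.2 (Or.inr ⟨h5, rfl⟩)
  · rw [hfa] at h4
    cases z
    · exact h4.1 trivial
    · exact h4.1 hy

theorem stage_not_fpp {B : Set α} {y r : α} (hy : y ∈ B) (hr : r ∉ B) :
    ¬ FPP (stage (starB B y) (insert r B) (starB_closed' B r y)) := by
  classical
  intro h
  have hry : r ≠ y := fun h => hr (h ▸ hy)
  obtain ⟨u, hu⟩ := h (fun u => Sum.elim (fun a => if a = r then Sum.inl y else Sum.inl r)
    (fun z => Sum.inr (!z)) u) (by
    rintro (a | z) (b | w) hab
    · rcases hab with h | ⟨h, h'⟩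
      · have h' : a = b := h
        rw [h']
        exact (stage (starB B y) (insert r B) (starB_closed' B r y)).refl' _
      · have h1 : a ∈ B := h
        have h2 : b = y := h'
        have h3 : a ≠ r := fun h => hr (h ▸ h1)
        rw [h2]
        simp only [Sum.elim_inl, h3, if_false, hry.symm]
        exact Or.inl rfl
    · cases w
      · have h1 : ∀ a : α, (if a = r then y else r) ∈ insert r B := by
          intro a
          split_ifs
          · exact Or.inr hy
          · exact Or.inl rfl
        by_cases har : a = r
        · simp only [Sum.elim_inl, Sum.elim_inr, har, if_true]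
          exact Or.inr hy
        · simp only [Sum.elim_inl, Sum.elim_inr, har, if_false]
          exact Or.inl rfl
      · by_cases har : a = r
        · simp only [Sum.elim_inl, Sum.elim_inr, har, if_true]
          exact trivial
        · simp only [Sum.elim_inl, Sum.elim_inr, har, if_false]
          exact trivial
    · exact hab.elim
    · have h1 : z = w := hab
      show (!z) = !w
      rw [h1])
  rcases u with a | z
  · by_cases har : a = r
    · simp only [Sum.elim_inl, har, if_true] at hu
      exact hry (Sum.inl.inj hu).symm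
    · simp only [Sum.elim_inl, har, if_false] at hu
      exact har (Sum.inl.inj hu).symm
  · simp only [Sum.elim_inr] at hu
    have := Sum.inr.inj hu
    cases z <;> simp at this

theorem stage_empty_eq (y : α) :
    stage (starB ∅ y) ∅ (starB_closed ∅ y) =
      starB {z : α ⊕ Bool | z ≠ Sum.inr true} (Sum.inr false) := by
  apply OrdRel.ext'
  ext ⟨u, v⟩
  rw [mem_stage, mem_starB]
  rcases u with a | z <;> rcases v with b | w
  · simp [stageRel, mem_starB]
  · cases w <;> simp [stageRel]
  · simp [stageRel]
  · cases z <;> cases w <;> simp [stageRel]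

/-- adding the elements of `s` one by one -/
theorem star_path [Finite α] (y : α) (s : Finset α) : y ∉ s →
    PB (stage (starB {y} y) {y} (starB_closed {y} y))
      (stage (starB (insert y (s : Set α)) y) (insert y (s : Set α))
        (starB_closed (insert y (s : Set α)) y)) s.card := by
  classical
  induction s using Finset.induction_on with
  | empty =>
    intro _
    have h : (insert y ((∅ : Finset α) : Set α)) = {y} := by simp
    simp only [h]
    exact PB.refl _
  | insert r s hrs ih =>
    intro hy
    have hys : y ∉ s := fun h => hy (Finset.mem_insert_of_mem h)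
    have hry : r ≠ y := fun h => hy (h ▸ Finset.mem_insert_self _ _)
    have hrB : r ∉ insert y (s : Set α) := by
      rintro (h | h)
      · exact hry h
      · exact hrs h
    have hset : insert y ((insert r s : Finset α) : Set α) = insert r (insert y (s : Set α)) := by
      rw [Finset.coe_insert, Set.insert_comm]
    simp only [hset]
    rw [Finset.card_insert_of_notMem hrs]
    have h1 := ih hys
    have h2 : Step (stage (starB (insert y (s : Set α)) y) (insert y (s : Set α))
        (starB_closed (insert y (s : Set α)) y))
        (stage (starB (insert y (s : Set α)) y) (insert r (insert y (s : Set α)))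
        (starB_closed' (insert y (s : Set α)) r y)) := stage_step_top rfl hrB
    have h3 : Step (starB (insert y (s : Set α)) y) (starB (insert r (insert y (s : Set α))) y) := by
      refine ⟨(r, y), ?_, ?_⟩
      · rintro (h | ⟨h, _⟩)
        · exact hry h
        · exact hrB h
      · ext ⟨a, b⟩
        rw [Set.mem_insert_iff, mem_starB, mem_starB, Prod.mk.injEq, Set.mem_insert_iff]
        tauto
    have h4 : Step (stage (starB (insert y (s : Set α)) y) (insert r (insert y (s : Set α)))
        (starB_closed' (insert y (s : Set α)) r y))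
        (stage (starB (insert r (insert y (s : Set α))) y) (insert r (insert y (s : Set α)))
        (starB_closed (insert r (insert y (s : Set α))) y)) := stage_step_pair h3
    exact (h1.any h2).flip h4 (stage_not_fpp (Or.inl rfl) hrB) (stage_fpp (Or.inr (Or.inl rfl)))

/-- the recursion for the switches -/
theorem flips_rec [Finite α] {x y : α} (hxy : x ≠ y) {L : OrdRel α} {q : ℕ}
    (h : PB (starB {z | z ≠ x} y) L q) :
    PB (starB {z : α ⊕ Bool | z ≠ Sum.inr true} (Sum.inr false)) (lift L)
      (1 + (Nat.card α - 2) + q) := by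
  classical
  have := Fintype.ofFinite α
  set s : Finset α := (Finset.univ.erase x).erase y with hs
  have hys : y ∉ s := by simp [hs]
  have hscard : s.card = Nat.card α - 2 := by
    rw [hs, Finset.card_erase_of_mem, Finset.card_erase_of_mem (Finset.mem_univ _),
      Finset.card_univ, Nat.card_eq_fintype_card]
    · omega
    · exact Finset.mem_erase.mpr ⟨hxy.symm, Finset.mem_univ _⟩
  have hset : (insert y (s : Set α)) = {z | z ≠ x} := by
    ext z
    simp only [hs, Finset.coe_erase, Finset.coe_univ, Set.mem_insert_iff, Set.mem_sdiff,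
      Set.mem_univ, true_and, Set.mem_singleton_iff]
    constructor
    · rintro (h | ⟨h, _⟩)
      · rw [h]; exact hxy.symm
      · exact h
    · intro h
      by_cases hzy : z = y
      · exact Or.inl hzy
      · exact Or.inr ⟨h, hzy⟩
  have h0 := star_path y s hys
  rw [hscard] at h0
  simp only [hset] at h0
  -- first step
  have e1 := starB_singleton y
  have hst1 : Step (stage (starB ∅ y) ∅ (starB_closed ∅ y))
      (stage (starB {y} y) {y} (starB_closed {y} y)) := by
    have h1 : ∀ (B : Set α) (hB : B = insert y ∅) (hc : ∀ a b, (a, b) ∈ (starB {y} y).1 → b ∈ B → a ∈ B),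
        Step (stage (starB ∅ y) ∅ (starB_closed ∅ y)) (stage (starB {y} y) B hc) := by
      intro B hB hc
      subst hB
      exact stage_step_top e1.symm (by simp)
    exact h1 {y} (by simp) _
  have hn1 : ¬ FPP (stage (starB ∅ y) ∅ (starB_closed ∅ y)) := by
    rw [stage_empty_eq]
    exact not_fpp_starB (by simp)
  have hf1 : FPP (stage (starB {y} y) {y} (starB_closed {y} y)) := stage_fpp rfl
  have p1 : PB (starB {z : α ⊕ Bool | z ≠ Sum.inr true} (Sum.inr false))
      (stage (starB {y} y) {y} (starB_closed {y} y)) 1 := by
    rw [← stage_empty_eq y]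
    exact (PB.refl _).flip hst1 hn1 hf1
  -- last step before the lifted path
  have hst2 : Step (stage (starB {z | z ≠ x} y) {z | z ≠ x} (starB_closed {z | z ≠ x} y))
      (lift (starB {z | z ≠ x} y)) := by
    have h1 : ∀ (B : Set α) (hB : B = insert x {z | z ≠ x})
        (hc : ∀ a b, (a, b) ∈ (starB {z | z ≠ x} y).1 → b ∈ B → a ∈ B),
        Step (stage (starB {z | z ≠ x} y) {z | z ≠ x} (starB_closed {z | z ≠ x} y))
          (stage (starB {z | z ≠ x} y) B hc) := by
      intro B hB hc
      subst hB
      exact stage_step_top rfl (by simp)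
    refine h1 Set.univ ?_ _
    ext z
    simp [em]
  exact ((p1.trans h0).any hst2).trans h.lift

end Pool.Agent.MPeb30e1
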