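import Mathlib
import Pool.Agent.MPeb30e1.Constr

set_option autoImplicit false

namespace Pool.Agent.MPeb30e1

variable {α : Type}

/-! ### Switches -/

theorem exists_path_to_total [Finite α] (R : OrdRel α) :
    ∃ L : OrdRel α, R.1 ⊆ L.1 ∧ 2 * L.1.ncard = Nat.card α ^ 2 + Nat.card α ∧ PB R L 0 := by
  obtain ⟨L, h1, h2⟩ := exists_total _ R le_rfl
  exact ⟨L, h1, h2, exists_PB L.1.ncard R L (by omega) h1⟩

theorem flips_base [Finite α] {x y : α} (hxy : x ≠ y) :
    ∃ L : OrdRel α, 2 * L.1.ncard = Nat.card α ^ 2 + Nat.card α ∧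
      PB (starB {z | z ≠ x} y) L 1 := by
  have : Nonempty α := ⟨x⟩
  obtain ⟨L, _, h2, h3⟩ := exists_path_to_total (starB {z | z ≠ x} y)
  exact ⟨L, h2, h3.one (not_fpp_starB hxy) (fpp_of_total h2)⟩

theorem div_aux3 (m : ℕ) : 1 + (m + 2 - 2) + ((m + 2 - 2) ^ 2 / 4 + 1) = (m + 2 + 2 - 2) ^ 2 / 4 + 1 := by
  have e1 : m + 2 - 2 = m := by omega
  have e2 : m + 2 + 2 - 2 = m + 2 := by omega
  rw [e1, e2]
  have e3 : (m + 2) ^ 2 = m ^ 2 + 4 * (m + 1) := by ring
  rw [e3]
  omega

theorem flips_all (n : ℕ) : 2 ≤ n →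
    ∃ (α : Type) (_ : Finite α) (x y : α) (L : OrdRel α), Nat.card α = n ∧ x ≠ y ∧
      2 * L.1.ncard = Nat.card α ^ 2 + Nat.card α ∧
      PB (starB {z | z ≠ x} y) L ((n - 2) ^ 2 / 4 + 1) := by
  induction n using Nat.strong_induction_on with
  | _ n ih =>
    intro hn
    by_cases h4 : n < 4
    · obtain ⟨L, h1, h2⟩ := flips_base (α := Fin n) (x := ⟨0, by omega⟩) (y := ⟨1, by omega⟩)
        (by simp)
      refine ⟨Fin n, inferInstance, ⟨0, by omega⟩, ⟨1, by omega⟩, L, Nat.card_fin n, by simp, h1, ?_⟩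
      have : (n - 2) ^ 2 / 4 = 0 := by
        have h5 : n - 2 ≤ 1 := by omega
        have h6 : (n - 2) ^ 2 ≤ 1 := by
          calc (n - 2) ^ 2 ≤ 1 ^ 2 := Nat.pow_le_pow_left h5 2
            _ = 1 := by norm_num
        omega
      rw [this]
      exact h2
    · obtain ⟨α, hfin, x, y, L, hcard, hxy, hL, hP⟩ := ih (n - 2) (by omega) (by omega)
      have hrec := flips_rec hxy hP
      have hcard' : Nat.card (α ⊕ Bool) = n := by
        rw [Nat.card_sum, hcard]
        simp
        omega
      obtain ⟨L', hL1, hL2⟩ := exists_total _ (lift L) le_rfl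
      refine ⟨α ⊕ Bool, inferInstance, Sum.inr true, Sum.inr false, L', hcard', by simp, hL2, ?_⟩
      have h2 := hrec.trans (exists_PB L'.1.ncard (lift L) L' (by omega) hL1)
      obtain ⟨m, rfl⟩ := Nat.exists_eq_add_of_le (show 4 ≤ n by omega)
      rw [hcard] at h2
      have e1 : 4 + m - 2 = m + 2 := by omega
      have e2 : 4 + m = m + 2 + 2 := by omega
      rw [e1, div_aux3 m, Nat.add_zero] at h2
      rw [e2]
      exact h2

/-- existence of a maximal chain with many switches -/
theorem flips_exists (n : ℕ) (hn : 2 ≤ n) :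
    ∃ C : Set (OrdRel (Fin n)), MaximalChain C ∧ (n - 2) ^ 2 / 4 + 1 ≤
      {q : OrdRel (Fin n) × OrdRel (Fin n) | Consecutive C q.1 q.2 ∧ ¬ FPP q.1 ∧ FPP q.2}.ncard := by
  obtain ⟨α, hfin, x, y, L, hcard, hxy, hL, hP⟩ := flips_all n hn
  let e : α ≃ Fin n := Finite.equivFinOfCardEq hcard
  have h0 : PB (diag α) (starB {z | z ≠ x} y) 0 :=
    exists_PB (starB {z | z ≠ x} y).1.ncard _ _ (by omega) (diag_sub _)
  have h1 := (h0.trans hP).map e
  rw [mapO_diag, Nat.zero_add] at h1
  have h2 : 2 * (mapO e L).1.ncard = Nat.card (Fin n) ^ 2 + Nat.card (Fin n) := by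
    rw [mapO_ncard, hL, hcard, Nat.card_fin]
  exact chain_of_PB h1 h2

/-! ### Few members with the FPP -/

/-- height one orders given by a set of pairs -/
def bip (B : Set (α × Bool)) : OrdRel (α ⊕ Bool) :=
  ⟨{p | p.1 = p.2 ∨ ∃ q ∈ B, p = (Sum.inl q.1, Sum.inr q.2)}, by
    refine ⟨fun a => Or.inl rfl, ?_, ?_⟩
    · rintro a b (h | ⟨q, _, h⟩) (h' | ⟨q', _, h'⟩)
      · exact h
      · exact h
      · exact h'.symm
      · rw [Prod.mk.injEq] at h h'
        rw [h.1] at h'
        exact absurd h'.2 (by simp)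
    · rintro a b c (h | ⟨q, hq, h⟩) (h' | ⟨q', hq', h'⟩)
      · exact Or.inl (Eq.trans h h')
      · have h3 : a = b := h
        rw [h3]
        exact Or.inr ⟨q', hq', h'⟩
      · have h3 : b = c := h'
        rw [← h3]
        exact Or.inr ⟨q, hq, h⟩
      · rw [Prod.mk.injEq] at h h'
        rw [h.2] at h'
        exact absurd h'.1 (by simp)⟩

theorem mem_bip {B : Set (α × Bool)} {u v : α ⊕ Bool} :
    (u, v) ∈ (bip B).1 ↔ (u = v ∨ ∃ q ∈ B, (u, v) = (Sum.inl q.1, Sum.inr q.2)) := Iff.rfl

theorem bip_step {B : Set (α × Bool)} {q : α × Bool} (hq : q ∉ B) :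
    Step (bip B) (bip (insert q B)) := by
  refine ⟨(Sum.inl q.1, Sum.inr q.2), ?_, ?_⟩
  · rintro (h | ⟨q', hq', h⟩)
    · exact absurd h (by simp)
    · rw [Prod.mk.injEq] at h
      have h1 : q = q' := Prod.ext (Sum.inl.inj h.1) (Sum.inr.inj h.2)
      rw [h1] at hq
      exact hq hq'
  · ext ⟨u, v⟩
    rw [Set.mem_insert_iff, mem_bip, mem_bip]
    constructor
    · rintro (h | ⟨q', (rfl | hq'), h⟩)
      · exact Or.inr (Or.inl h)
      · exact Or.inl h
      · exact Or.inr (Or.inr ⟨q', hq', h⟩)
    · rintro (h | h | ⟨q', hq', h⟩)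
      · exact Or.inr ⟨q, Or.inl rfl, h⟩
      · exact Or.inl h
      · exact Or.inr ⟨q', Or.inr hq', h⟩

theorem bip_empty : bip (∅ : Set (α × Bool)) = diag (α ⊕ Bool) := by
  apply OrdRel.ext'
  ext ⟨u, v⟩
  rw [mem_bip]
  constructor
  · rintro (h | ⟨q, hq, _⟩)
    · exact h
    · exact hq.elim
  · intro h
    exact Or.inl h

theorem bip_univ : bip (Set.univ : Set (α × Bool)) = lift (diag α) := by
  apply OrdRel.ext'
  ext ⟨u, v⟩
  rw [mem_bip]
  constructor
  · rintro (h | ⟨q, hq, h⟩)
    · rw [h]
      exact (lift (diag α)).refl' v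
    · rw [h]
      obtain ⟨a, z⟩ := q
      cases z <;> exact trivial
  · intro h
    rcases u with a | z <;> rcases v with b | w
    · have h' : a = b := h
      exact Or.inl (by rw [h'])
    · exact Or.inr ⟨(a, w), trivial, rfl⟩
    · exact h.elim
    · have h' : z = w := h
      exact Or.inl (by rw [h'])

/-- adding a finite set of pairs, never meeting the FPP -/
theorem bip_path (B : Set (α × Bool)) (s : Finset (α × Bool)) :
    (∀ q ∈ s, q ∉ B) → (∀ t : Finset (α × Bool), t ⊆ s → t.Nonempty → ¬ FPP (bip (B ∪ (t : Set (α × Bool))))) →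
    PA (bip B) (bip (B ∪ (s : Set (α × Bool)))) 0 := by
  classical
  induction s using Finset.induction_on with
  | empty =>
    intro _ _
    rw [Finset.coe_empty, Set.union_empty]
    exact PA.refl _
  | insert q s hqs ih =>
    intro h1 h2
    have h3 := ih (fun q' hq' => h1 q' (Finset.mem_insert_of_mem hq'))
      (fun t ht hne => h2 t (ht.trans (Finset.subset_insert _ _)) hne)
    have h4 := h2 (insert q s) le_rfl ⟨q, Finset.mem_insert_self _ _⟩
    have h5 : B ∪ ((insert q s : Finset (α × Bool)) : Set (α × Bool)) =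
        insert q (B ∪ (s : Set (α × Bool))) := by
      rw [Finset.coe_insert, Set.union_insert]
    rw [h5] at h4 ⊢
    refine h3.non (bip_step ?_) h4
    rintro (h | h)
    · exact h1 q (Finset.mem_insert_self _ _) h
    · exact hqs h

theorem not_fpp_bip_isolated {B : Set (α × Bool)} (r r' : α) (hr : r ≠ r')
    (hB : ∀ q ∈ B, q.1 ≠ r) : ¬ FPP (bip B) := by
  classical
  intro h
  obtain ⟨u, hu⟩ := h (fun u => if u = Sum.inl r then Sum.inl r' else Sum.inl r) (by
    rintro u v (h | ⟨q, hq, h⟩)
    · have h' : u = v := h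
      rw [h']
      exact Or.inl rfl
    · rw [Prod.mk.injEq] at h
      have h1 : u ≠ Sum.inl r := by
        rw [h.1]
        intro h2
        exact hB q hq (Sum.inl.inj h2)
      have h2 : v ≠ Sum.inl r := by
        rw [h.2]
        simp
      simp only [h1, h2, if_false]
      exact Or.inl rfl)
  by_cases hur : u = Sum.inl r
  · simp only [hur, if_true] at hu
    exact hr (Sum.inl.inj hu).symm
  · simp only [hur, if_false] at hu
    exact hur hu.symm

theorem not_fpp_bip_crown {B : Set (α × Bool)} (r r' : α) (hr : r ≠ r')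
    (hB : ∀ z, (r, z) ∈ B ∧ (r', z) ∈ B) : ¬ FPP (bip B) := by
  classical
  intro h
  obtain ⟨u, hu⟩ := h (fun u => Sum.elim (fun a => if a = r then Sum.inl r' else Sum.inl r)
    (fun z => Sum.inr (!z)) u) (by
    rintro u v (h | ⟨q, hq, h⟩)
    · have h' : u = v := h
      rw [h']
      exact Or.inl rfl
    · rw [Prod.mk.injEq] at h
      rw [h.1, h.2]
      by_cases hqr : q.1 = r
      · simp only [Sum.elim_inl, Sum.elim_inr, hqr, if_true]
        exact Or.inr ⟨(r', !q.2), (hB _).2, rfl⟩
      · simp only [Sum.elim_inl, Sum.elim_inr, hqr, if_false]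
        exact Or.inr ⟨(r, !q.2), (hB _).1, rfl⟩)
  rcases u with a | z
  · by_cases har : a = r
    · simp only [Sum.elim_inl, har, if_true] at hu
      exact hr (Sum.inl.inj hu).symm
    · simp only [Sum.elim_inl, har, if_false] at hu
      exact har (Sum.inl.inj hu).symm
  · simp only [Sum.elim_inr] at hu
    have := Sum.inr.inj hu
    cases z <;> simp at this

/-- from the antichain to `A_n ⊕ A_2` without meeting the FPP, at least three points below -/
theorem path_to_lift_diag [Finite α] (r₁ r₂ r₃ : α) (h12 : r₁ ≠ r₂) (h13 : r₁ ≠ r₃)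
    (h23 : r₂ ≠ r₃) : PA (diag (α ⊕ Bool)) (lift (diag α)) 0 := by
  classical
  have := Fintype.ofFinite α
  let B0 : Finset (α × Bool) := ({r₁, r₂} : Finset α) ×ˢ Finset.univ
  have h1 := bip_path (α := α) ∅ B0 (by simp) (by
    intro t ht hne
    apply not_fpp_bip_isolated r₃ r₁ h13.symm
    intro q hq
    rw [Set.empty_union] at hq
    have h2 := ht hq
    simp only [B0, Finset.mem_product, Finset.mem_insert, Finset.mem_singleton] at h2
    rcases h2.1 with h | h
    · rw [h]; exact h13
    · rw [h]; exact h23)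
  have h2 := bip_path (α := α) (∅ ∪ (B0 : Set (α × Bool))) (Finset.univ \ B0) (by
    intro q hq h
    rw [Set.empty_union] at h
    exact (Finset.mem_sdiff.mp hq).2 h) (by
    intro t ht hne
    apply not_fpp_bip_crown r₁ r₂ h12
    intro z
    constructor
    · left; right
      simp [B0]
    · left; right
      simp [B0])
  have h3 := h1.trans h2
  have h4 : (∅ ∪ (B0 : Set (α × Bool))) ∪ ((Finset.univ \ B0 : Finset (α × Bool)) : Set (α × Bool))
      = Set.univ := by
    ext q
    by_cases h : q ∈ B0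
    · simp [h]
    · simp [h]
  rw [h4, bip_univ, bip_empty] at h3
  exact h3

theorem not_fpp_diag {r r' : α} (h : r ≠ r') : ¬ FPP (diag α) := by
  classical
  intro hF
  obtain ⟨u, hu⟩ := hF (fun u => if u = r then r' else r) (by
    intro a b hab
    have h' : a = b := hab
    rw [h']
    exact rfl)
  by_cases hur : u = r
  · simp only [hur, if_true] at hu
    exact h hu.symm
  · simp only [hur, if_false] at hu
    exact hur hu.symm

/-- a total order lifted is one pair away from a total order -/
theorem lift_total [Finite α] {L : OrdRel α} (hL : 2 * L.1.ncard = Nat.card α ^ 2 + Nat.card α) :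
    ∃ L' : OrdRel (α ⊕ Bool), 2 * L'.1.ncard = Nat.card (α ⊕ Bool) ^ 2 + Nat.card (α ⊕ Bool) ∧
      ∃ p ≤ 1, PA (lift L) L' p := by
  obtain ⟨L', h1, h2⟩ := exists_total _ (lift L) le_rfl
  refine ⟨L', h2, exists_PA 1 _ _ ?_ h1⟩
  have h3 := count_eq L
  have h4 : (Inc L).ncard = 0 := by omega
  rw [Set.ncard_eq_zero (Set.toFinite _)] at h4
  have h5 : Inc (lift L) ⊆ {(Sum.inr true, Sum.inr false), (Sum.inr false, Sum.inr true)} := by
    rintro ⟨u, v⟩ h
    rcases u with a | z <;> rcases v with b | w
    · exfalso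
      have h6 : (a, b) ∈ Inc L := ⟨h.1, h.2⟩
      rw [h4] at h6
      exact h6
    · exfalso
      cases w
      · exact h.1 trivial
      · exact h.1 trivial
    · exfalso
      cases z
      · exact h.2 trivial
      · exact h.2 trivial
    · cases z <;> cases w
      · exact absurd rfl h.1
      · simp
      · simp
      · exact absurd rfl h.1
  have h6 : (Inc (lift L)).ncard ≤ 2 :=
    (Set.ncard_le_ncard h5 (Set.toFinite _)).trans
      ((Set.ncard_insert_le _ _).trans (by rw [Set.ncard_singleton]))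
  have h7 := count_eq (lift L)
  omega

theorem few_all (n : ℕ) : 2 ≤ n →
    ∃ (α : Type) (_ : Finite α) (L : OrdRel α) (p : ℕ), Nat.card α = n ∧
      2 * L.1.ncard = Nat.card α ^ 2 + Nat.card α ∧
      p ≤ (if n = 2 then 1 else n / 2 + 1) ∧ PA (diag α) L p := by
  classical
  induction n using Nat.strong_induction_on with
  | _ n ih =>
    intro hn
    rcases Nat.lt_or_ge n 3 with h3 | h3
    · -- two points
      have hn2 : n = 2 := by omega
      subst hn2
      obtain ⟨L, h1, h2⟩ := exists_total _ (diag Bool) le_rfl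
      obtain ⟨p, hp, hP⟩ := exists_PA 1 (diag Bool) L (by
        rw [ncard_diag]
        simp at h2 ⊢
        omega) h1
      exact ⟨Bool, inferInstance, L, p, by simp, h2, by simpa using hp, hP⟩
    rcases Nat.lt_or_ge n 4 with h4 | h4
    · -- three points
      have hn3 : n = 3 := by omega
      subst hn3
      have hc : Nat.card (Fin 3) = 3 := by simp
      obtain ⟨T, hT⟩ := exists_step (R := diag (Fin 3)) (by
        refine ⟨(0, 1), ?_, ?_⟩
        · intro h
          have h' : (0 : Fin 3) = 1 := h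
          exact absurd h' (by decide)
        · intro h
          have h' : (1 : Fin 3) = 0 := h
          exact absurd h' (by decide))
      have hTc := hT.ncard
      rw [ncard_diag, hc] at hTc
      obtain ⟨L, h1, h2⟩ := exists_total _ T le_rfl
      obtain ⟨p, hp, hP⟩ := exists_PA 2 T L (by
        rw [hc] at h2
        omega) h1
      refine ⟨Fin 3, inferInstance, L, 0 + p, hc, h2, by norm_num; exact hp, ?_⟩
      refine ((PA.refl _).non hT (not_fpp_of_small ⟨0⟩ ?_)).trans hP
      rw [hTc, hc]
      norm_num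
    rcases Nat.lt_or_ge n 5 with h5 | h5
    · -- four points
      have hn4 : n = 4 := by omega
      subst hn4
      obtain ⟨α, hfin, L, p, hcard, hL, hp, hP⟩ := ih 2 (by omega) (by omega)
      have hcard' : Nat.card (α ⊕ Bool) = 4 := by
        rw [Nat.card_sum, hcard]
        simp
      have hne : Nonempty (α ⊕ Bool) := ⟨Sum.inr true⟩
      let e : Fin 2 ≃ α := (Finite.equivFinOfCardEq hcard).symm
      have h01 : e 0 ≠ e 1 := fun h => absurd (e.injective h) (by decide)
      -- the four pairs
      have s1 : Step (bip (∅ : Set (α × Bool))) (bip (insert (e 0, true) ∅)) := bip_step (by simp)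
      have s2 : Step (bip (insert (e 0, true) ∅)) (bip (insert (e 0, false) (insert (e 0, true) ∅))) :=
        bip_step (by simp)
      have s3 : Step (bip (insert (e 0, false) (insert (e 0, true) ∅)))
          (bip (insert (e 1, true) (insert (e 0, false) (insert (e 0, true) ∅)))) :=
        bip_step (by simp [h01.symm])
      have s4 : Step (bip (insert (e 1, true) (insert (e 0, false) (insert (e 0, true) ∅))))
          (bip (insert (e 1, false) (insert (e 1, true) (insert (e 0, false) (insert (e 0, true) ∅))))) :=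
        bip_step (by simp [h01.symm])
      have hun : insert (e 1, false) (insert (e 1, true) (insert (e 0, false)
          (insert (e 0, true) (∅ : Set (α × Bool))))) = Set.univ := by
        ext ⟨a, z⟩
        obtain ⟨i, rfl⟩ := e.surjective a
        fin_cases i <;> cases z <;> simp
      rw [hun, bip_univ] at s4
      have c0 : (bip (∅ : Set (α × Bool))).1.ncard = 4 := by
        rw [bip_empty, ncard_diag, hcard']
      have c1 := s1.ncard
      have c2 := s2.ncard
      have n1 : ¬ FPP (bip (insert (e 0, true) (∅ : Set (α × Bool)))) :=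
        not_fpp_of_small hne (by rw [hcard']; omega)
      have n2 : ¬ FPP (bip (insert (e 0, false) (insert (e 0, true) (∅ : Set (α × Bool))))) :=
        not_fpp_of_small hne (by rw [hcard']; omega)
      have n4 : ¬ FPP (lift (diag α)) := fun h => not_fpp_diag h01 ((lift_fpp _).mp h)
      have hpath := ((((PA.refl _).non s1 n1).non s2 n2).any s3).non s4 n4
      rw [bip_empty] at hpath
      obtain ⟨L', hL', q, hq, hQ⟩ := lift_total hL
      refine ⟨α ⊕ Bool, inferInstance, L', 0 + 1 + p + q, hcard', hL', ?_, (hpath.trans hP.lift).trans hQ⟩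
      norm_num at hp ⊢
      omega
    · -- at least five points
      obtain ⟨α, hfin, L, p, hcard, hL, hp, hP⟩ := ih (n - 2) (by omega) (by omega)
      have hcard' : Nat.card (α ⊕ Bool) = n := by
        rw [Nat.card_sum, hcard]
        simp
        omega
      let e : Fin (n - 2) ≃ α := (Finite.equivFinOfCardEq hcard).symm
      have hpath : PA (diag (α ⊕ Bool)) (lift (diag α)) 0 :=
        path_to_lift_diag (e ⟨0, by omega⟩) (e ⟨1, by omega⟩) (e ⟨2, by omega⟩)
          (fun h => absurd (e.injective h) (by simp))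
          (fun h => absurd (e.injective h) (by simp))
          (fun h => absurd (e.injective h) (by simp))
      obtain ⟨L', hL', q, hq, hQ⟩ := lift_total hL
      refine ⟨α ⊕ Bool, inferInstance, L', 0 + p + q, hcard', hL', ?_, (hpath.trans hP.lift).trans hQ⟩
      have e1 : n ≠ 2 := by omega
      have e2 : n - 2 ≠ 2 ∨ n - 2 = 2 := by omega
      rw [if_neg e1]
      rcases e2 with e2 | e2
      · rw [if_neg e2] at hp
        omega
      · omega

/-- existence of a maximal chain with few members having the FPP -/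
theorem few_exists (n : ℕ) (hn : 2 ≤ n) :
    ∃ C : Set (OrdRel (Fin n)), MaximalChain C ∧
      {R | R ∈ C ∧ FPP R}.ncard ≤ (if n = 2 then 1 else n / 2 + 1) := by
  obtain ⟨α, hfin, L, p, hcard, hL, hp, hP⟩ := few_all n hn
  let e : α ≃ Fin n := Finite.equivFinOfCardEq hcard
  have h1 := hP.map e
  rw [mapO_diag] at h1
  have h2 : 2 * (mapO e L).1.ncard = Nat.card (Fin n) ^ 2 + Nat.card (Fin n) := by
    rw [mapO_ncard, hL, hcard, Nat.card_fin]
  have h3 : ¬ FPP (diag (Fin n)) := by
    apply not_fpp_diag (r := ⟨0, by omega⟩) (r' := ⟨1, by omega⟩)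
    simp
  obtain ⟨C, hC, hC2⟩ := chain_of_PA h1 h2 h3
  exact ⟨C, hC, hC2.trans hp⟩

end Pool.Agent.MPeb30e1
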